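import Pool.Agent.Helper74.LF.GoalsG

/-!
# Project LL (MP_cc6379_al): packet EXC
-/

set_option autoImplicit false

open Pool.Agent.Helper15.RA Pool.Agent.Helper45.AM

noncomputable section

namespace Pool.Agent.Helper74.LF.C_EXC

open Pool.Agent.Helper74.LF

theorem t (hKD2 : KD2) (hK1 : K1) : EXC := by
  intro S W _ M cs hM x b r t hxb hb hrt hMrt h1 h2 h3 h4
  obtain ⟨kr, -, -, -, k5, -, -, -, -, k10, k11⟩ := hKD2 S W M cs
  obtain ⟨c1, -, -, -, c5, -⟩ := hK1 S W M cs hM
  have hsym : ∀ i j, M i j = M j i := fun i j => M.symmetric i j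
  -- the basic closure rule
  have kd : ∀ i j w, i ≠ j → cs.IsRightDescent w i → cs.IsRightDescent w j →
      cs.IsRightDescent (w * cs.simple i) j := fun i j w hij hi hj =>
    (kr i j hij (hM.fin i j) w hi hj).2.1
  obtain ⟨π, hπ⟩ := cs.exists_rightDescent_of_ne_one hb
  have hπr : π ≠ r := fun h => h2 (h ▸ hπ)
  have hπt : π ≠ t := fun h => h3 (h ▸ hπ)
  have hwπ : cs.IsRightDescent (x * b) π := (k10 x b π hxb).1 hπ
  have hm : M r π = 2 := c5 (x * b) r t π hπr hπt h1 h4 hwπ
  have hm' : M π r = 2 := by rw [hsym]; exact hm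
  have hcomm : cs.simple π * cs.simple r = cs.simple r * cs.simple π := k11 π r hm'
  obtain ⟨b₃, hb₃⟩ : ∃ b₃, b₃ = b * cs.simple π := ⟨_, rfl⟩
  have hbb : b = b₃ * cs.simple π := by
    rw [hb₃, mul_assoc, cs.simple_mul_simple_self, mul_one]
  have hlb : cs.length b₃ + 1 = cs.length b := by
    rw [hb₃]; exact (cs.isRightDescent_iff).1 hπ
  have hxb₃ : x * b₃ = x * b * cs.simple π := by rw [hb₃, mul_assoc]
  have hlx₃ : cs.length (x * b₃) + 1 = cs.length (x * b) := by
    rw [hxb₃]; exact (cs.isRightDescent_iff).1 hwπ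
  have hred : cs.length (x * b₃) = cs.length x + cs.length b₃ := by omega
  have hr₃ : cs.IsRightDescent (x * b₃) r := by
    rw [hxb₃]; exact kd π r (x * b) hπr hwπ h1
  have hπ₃ : ¬ cs.IsRightDescent b₃ π := by
    rw [cs.not_isRightDescent_iff, ← hbb]; omega
  have hnr₃ : ¬ cs.IsRightDescent b₃ r := by
    intro h
    have := k5 π r b₃ hm' hπ₃ h
    rw [← hbb] at this
    exact h2 this
  have hcomm2 : x * b * cs.simple r = x * b₃ * cs.simple r * cs.simple π := by
    rw [hbb, ← mul_assoc, mul_assoc (x * b₃), hcomm, ← mul_assoc]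
  by_cases hb1 : b₃ = 1
  · refine ⟨π, ?_, hm, ?_, ?_⟩
    · rw [hbb, hb1, one_mul]
    · rw [hb1, mul_one] at hr₃; exact hr₃
    · rw [hcomm2, hb1, mul_one] at h4; exact h4
  · exfalso
    obtain ⟨p, hp⟩ := cs.exists_rightDescent_of_ne_one hb1
    have hpπ : p ≠ π := fun h => hπ₃ (h ▸ hp)
    have hpr : p ≠ r := fun h => hnr₃ (h ▸ hp)
    have hxp : cs.IsRightDescent (x * b₃) p := (k10 x b₃ p hred).1 hp
    obtain ⟨u, hu⟩ : ∃ u, u = x * b₃ * cs.simple r := ⟨_, rfl⟩
    have hlu : cs.length u + 1 = cs.length (x * b₃) := by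
      rw [hu]; exact (cs.isRightDescent_iff).1 hr₃
    have hwr : x * b * cs.simple r = u * cs.simple π := by rw [hcomm2, hu]
    have hlwr : cs.length (u * cs.simple π) + 1 = cs.length (x * b) := by
      rw [← hwr]; exact (cs.isRightDescent_iff).1 h1
    have huππ : u * cs.simple π * cs.simple π = u := by
      rw [mul_assoc, cs.simple_mul_simple_self, mul_one]
    have huπ : cs.IsRightDescent (u * cs.simple π) π := by
      rw [cs.isRightDescent_iff, huππ]; omega
    rw [hwr] at h4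
    have hMπt : M π t ≠ 2 := fun h => hMrt (hM.tr π r t hm' h hrt)
    obtain ⟨-, e1, e2⟩ := kr π t hπt (hM.fin π t) (u * cs.simple π) huπ h4
    obtain ⟨e2, e3, e4⟩ := e2 (hM.big π t hπt hMπt)
    rw [huππ] at e1 e2 e3 e4
    obtain ⟨-, f1, f2⟩ := kr r p (Ne.symm hpr) (hM.fin r p) (x * b₃) hr₃ hxp
    rw [← hu] at f1
    have hMrp : M r p ≠ 2 := by
      intro h
      by_cases hpt : p = t
      · rw [hpt] at h
        exact hMrt h
      · have g1 : M t p = 2 := c5 u t π p hpt hpπ e1 e2 f1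
        exact hMrt (hM.tr p r t (by rw [hsym]; exact h) (by rw [hsym]; exact g1) hrt)
    obtain ⟨f2, -, -⟩ := f2 (hM.big r p (Ne.symm hpr) hMrp)
    rw [← hu] at f2
    by_cases hpt : p = t
    · subst hpt
      -- `p = t`
      have g1 : cs.IsRightDescent (u * cs.simple p * cs.simple π) r := kd π r _ hπr e2 f2
      have g2 : cs.IsRightDescent (u * cs.simple p * cs.simple π * cs.simple p) r :=
        kd p r _ hpr e3 g1
      have g3 : M p r = 2 := c1 (u * cs.simple p * cs.simple π) p r π hpr hpπ (Ne.symm hπr) e3 g1 g2 e4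
      exact hMrp (by rw [hsym]; exact g3)
    · have g1 : M t p = 2 := c5 u t π p hpt hpπ e1 e2 f1
      have g2 : cs.IsRightDescent (u * cs.simple t) p := kd t p u (Ne.symm hpt) e1 f1
      have g3 : cs.IsRightDescent (u * cs.simple t * cs.simple p) π := kd p π _ hpπ g2 e2
      have g4 : cs.IsRightDescent (u * cs.simple p) t := kd p t u hpt f1 e1
      have g5 : cs.IsRightDescent (u * cs.simple p * cs.simple t) r := kd t r _ (Ne.symm hrt) g4 f2
      have g6 : u * cs.simple p * cs.simple t = u * cs.simple t * cs.simple p := by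
        rw [mul_assoc, mul_assoc, k11 t p g1]
      rw [g6] at g5
      have g7 : M p π = 2 := c1 (u * cs.simple t) p π r hpπ hpr hπr g2 e2 g3 g5
      exact hMrp (by rw [hsym]; exact hM.tr π p r (by rw [hsym]; exact g7) hm' hpr)

end Pool.Agent.Helper74.LF.C_EXC
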