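import Pool.Agent.Helper74.LF.GoalsG

/-!
# Project LL (MP_cc6379_al), packet LL-GEO
-/

set_option autoImplicit false

open Pool.Agent.Helper15.RA Pool.Agent.Helper45.AM

namespace Pool.Agent.Helper74.LF.C_GEO

open Pool.Agent.Helper74.LF

theorem t (_hD1 : Pool.Agent.Helper74.LF.KD1) (hD2 : Pool.Agent.Helper74.LF.KD2)
    (hTR : Pool.Agent.Helper74.LF.TR) (hG1 : Pool.Agent.Helper74.LF.GEO1) : Pool.Agent.Helper74.LF.GEO := by
  intro S W _ M cs hM i j x g y hij hx hg hy
  have hpre := (hD2 S W M cs).2.2.2.2.2.2.2.1
  have hxg : cs.length (x * g) = cs.length x + cs.length g :=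
    (Pool.Agent.Helper15.AM.k_gpa S W M cs {i, j}).2.2 x hx g hg.1
  have main : ∀ (n : ℕ) (y : W), cs.length y = n → XL cs {i, j} y →
      cs.length (x * g * y) ≠ cs.length x + cs.length g + cs.length y → T4 cs x g y := by
    intro n
    induction n with
    | zero =>
      intro y hn _ hne
      rw [CoxeterSystem.length_eq_zero_iff] at hn
      subst hn
      rw [mul_one, hxg, cs.length_one, add_zero] at hne
      exact absurd rfl hne
    | succ n ih =>
      intro y hn hyL hne
      have hy1 : y ≠ 1 := fun h => by
        rw [h, cs.length_one] at hn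
        omega
      obtain ⟨r, hr⟩ := cs.exists_rightDescent_of_ne_one hy1
      have hr' := (cs.isRightDescent_iff).1 hr
      have hy0 : y = y * cs.simple r * cs.simple r := by rw [mul_assoc, cs.simple_mul_simple_self, mul_one]
      have hl0 : cs.length (y * cs.simple r * cs.simple r) = cs.length (y * cs.simple r) + cs.length (cs.simple r) := by
        rw [← hy0, cs.length_simple, hr']
      have hyL0 : XL cs {i, j} (y * cs.simple r) := hpre {i, j} (y * cs.simple r) (cs.simple r) (hy0 ▸ hyL) hl0
      have hyL' : XL cs {i, j} (y * cs.simple r * cs.simple r) := hy0 ▸ hyL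
      rw [hy0]
      by_cases hred : cs.length (x * g * (y * cs.simple r)) = cs.length x + cs.length g + cs.length (y * cs.simple r)
      · refine hG1 S W M cs hM i j x g (y * cs.simple r) r hij hx hg hred hyL' ?_ ?_
        · rw [hl0, cs.length_simple]
        · by_contra hnd
          have h1 := (cs.not_isRightDescent_iff).1 hnd
          apply hne
          have e : x * g * y = x * g * (y * cs.simple r) * cs.simple r := by
            rw [mul_assoc (x * g), ← hy0]
          rw [e, h1, hred]
          omega
      · exact hTR S W M cs hM i j x g (y * cs.simple r) (cs.simple r) hij hx hg.1 hl0 hyL'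
          (ih (y * cs.simple r) (by omega) hyL0 hred)
  refine ⟨main _ y rfl hy, fun h4 => ?_⟩
  by_contra hne
  have hs : ∀ a, cs.length (cs.simple a) = 1 := cs.length_simple
  have h2 : ∀ a b, cs.length (cs.simple a * cs.simple b) ≤ 2 := fun a b => by
    have := cs.length_mul_le (cs.simple a) (cs.simple b)
    rw [hs, hs] at this
    exact this
  rcases main _ y rfl hy hne with ⟨a, b, c, -, -, -, h, -⟩ | ⟨a, b, c, -, -, -, h, -⟩ | ⟨a, b, c, -, -, -, h, -⟩ |
    ⟨a, b, c, -, -, -, -, h, -⟩
  · rw [h] at h4
    have := h2 a b
    omega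
  · rw [h] at h4
    have := h2 a c
    omega
  · rw [h] at h4
    have := h2 c b
    omega
  · rw [h] at h4
    have h3 := cs.length_mul_le (cs.simple a * cs.simple b) (cs.simple a)
    have := h2 a b
    rw [hs] at h3
    omega

end Pool.Agent.Helper74.LF.C_GEO
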