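import Pool.Agent.Helper74.LF.GoalsG
import Pool.Agent.Helper15.AM.All

/-!
# Project LL (MP_cc6379_al), packet HARD
-/

set_option autoImplicit false

namespace Pool.Agent.Helper74.LF.C_HARD

open Pool.Agent.Helper15.RA Pool.Agent.Helper45.AM Pool.Agent.Helper74.LF

section

variable {S W : Type} [Group W] {M : CoxeterMatrix S} (cs : CoxeterSystem M W)

/-- the facts on right descents which are used -/
structure RF : Prop where
  /-- `KD2` (1), short form -/
  d1 : ∀ i j w, i ≠ j → cs.IsRightDescent w i → cs.IsRightDescent w j →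
    cs.IsRightDescent (w * cs.simple i) j
  /-- `KD2` (1), long form -/
  d7 : ∀ i j w, i ≠ j → M i j ≠ 2 → cs.IsRightDescent w i → cs.IsRightDescent w j →
    cs.IsRightDescent (w * cs.simple i * cs.simple j) i ∧
      cs.IsRightDescent (w * cs.simple i * cs.simple j * cs.simple i) j ∧
      cs.IsRightDescent (w * cs.simple i * cs.simple j * cs.simple i * cs.simple j) i
  k1 : ∀ w a b c, a ≠ b → a ≠ c → b ≠ c → cs.IsRightDescent w a → cs.IsRightDescent w b →
    cs.IsRightDescent (w * cs.simple a) b → cs.IsRightDescent (w * cs.simple a) c → M a b = 2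
  cl1 : ∀ w a b c, c ≠ a → c ≠ b → cs.IsRightDescent w a → cs.IsRightDescent (w * cs.simple a) b →
    cs.IsRightDescent w c → M a c = 2
  tr : ∀ i j k, M i j = 2 → M i k = 2 → j ≠ k → M j k = 2
  comm : ∀ i j, M i j = 2 → cs.simple i * cs.simple j = cs.simple j * cs.simple i
  d5 : ∀ i j x, M i j = 2 → ¬ cs.IsRightDescent x i → cs.IsRightDescent x j →
    cs.IsRightDescent (x * cs.simple i) j
  red : ∀ (u v : W) (i : S), cs.length (u * v) = cs.length u + cs.length v →
    cs.IsRightDescent v i → cs.IsRightDescent (u * v) i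

lemma rf (hKD2 : KD2) (hK1 : K1) (hM : Lg M) : RF cs := by
  obtain ⟨h1, -, -, -, h5, -, -, -, -, h10, h11⟩ := hKD2 S W M cs
  obtain ⟨k1, -, -, -, k5, -⟩ := hK1 S W M cs hM
  exact
    { d1 := fun i j w hij hi hj => (h1 i j hij (hM.fin i j) w hi hj).2.1
      d7 := fun i j w hij h2 hi hj => (h1 i j hij (hM.fin i j) w hi hj).2.2 (hM.big i j hij h2)
      k1 := k1
      cl1 := k5
      tr := hM.tr
      comm := h11
      d5 := h5
      red := fun u v i h hv => (h10 u v i h).1 hv }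

variable {cs}

lemma mm (w : W) (i : S) : w * cs.simple i * cs.simple i = w := by
  rw [mul_assoc, cs.simple_mul_simple_self, mul_one]

/-- a descent is not a descent any more after it is removed -/
lemma nd {w : W} {i : S} (h : cs.IsRightDescent w i) : ¬ cs.IsRightDescent (w * cs.simple i) i := by
  intro h2
  have h3 := cs.isRightDescent_iff.mp h
  have h4 := cs.isRightDescent_iff.mp h2
  rw [mm] at h4
  omega

/-- part (1) and (2) -/
lemma part2 (F : RF cs) (x g y : W) (p q θ : S) (hpq : p ≠ q) (hMpq : M p q ≠ 2)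
    (hl : cs.length (x * g * y) = cs.length x + cs.length g + cs.length y)
    (hyp : ¬ cs.IsRightDescent y p) (hyq : ¬ cs.IsRightDescent y q)
    (hgy : cs.IsRightDescent (g * y) p) (hq : cs.IsRightDescent (x * g * y * cs.simple p) q)
    (hθ : cs.IsRightDescent y θ) :
    M p θ = 2 ∧ M θ q ≠ 2 ∧ cs.IsRightDescent (x * g * y * cs.simple p) θ ∧ θ ≠ p ∧ θ ≠ q ∧
      y = cs.simple θ := by
  have hθp : θ ≠ p := by
    rintro rfl
    exact hyp hθ
  have hθq : θ ≠ q := by
    rintro rfl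
    exact hyq hθ
  -- lengths
  have hsub : ∀ u v : W, cs.length (u * v) ≤ cs.length u + cs.length v := cs.length_mul_le
  have hlgy : cs.length (g * y) = cs.length g + cs.length y := by
    have h1 := hsub g y
    have h2 := hsub x (g * y)
    rw [← mul_assoc] at h2
    omega
  have hlx : cs.length (x * (g * y)) = cs.length x + cs.length (g * y) := by
    rw [← mul_assoc, hl, hlgy]
    omega
  have hvp : cs.IsRightDescent (x * g * y) p := by
    rw [mul_assoc]
    exact F.red x (g * y) p hlx hgy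
  have hvθ : cs.IsRightDescent (x * g * y) θ := by
    rw [mul_assoc]
    exact F.red x (g * y) θ hlx (F.red g y θ hlgy hθ)
  have hvpθ : cs.IsRightDescent (x * g * y * cs.simple p) θ :=
    F.d1 p θ _ hθp.symm hvp hvθ
  have hpθ : M p θ = 2 := F.k1 _ p θ q hθp.symm hpq hθq hvp hvθ hvpθ hq
  have hθp2 : M θ p = 2 := by rw [M.symmetric, hpθ]
  have hθq2 : M θ q ≠ 2 := fun h => hMpq (F.tr θ p q hθp2 h hpq)
  refine ⟨hpθ, hθq2, hvpθ, hθp, hθq, ?_⟩
  -- part (2)
  have hly : cs.length (y * cs.simple θ) + 1 = cs.length y := cs.isRightDescent_iff.mp hθ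
  by_contra hne
  have hy3 : y * cs.simple θ ≠ 1 := by
    intro h
    apply hne
    have h2 := congrArg (fun z => z * cs.simple θ) h
    simp only [one_mul] at h2
    rw [mm] at h2
    exact h2
  obtain ⟨θ₃, h3⟩ := cs.exists_rightDescent_of_ne_one hy3
  have hθ3 : θ₃ ≠ θ := by
    rintro rfl
    exact nd hθ h3
  have hp3 : ¬ cs.IsRightDescent (y * cs.simple θ) p := by
    intro h
    have h2 := F.d5 θ p _ hθp2 (nd hθ) h
    rw [mm] at h2
    exact hyp h2
  have hθ3p : θ₃ ≠ p := by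
    rintro rfl
    exact hp3 h3
  obtain ⟨v₃, hv3⟩ : ∃ v₃, v₃ = x * g * (y * cs.simple θ) := ⟨_, rfl⟩
  have hv3' : v₃ = x * g * y * cs.simple θ := by rw [hv3]; group
  have hlv3 : cs.length v₃ + 1 = cs.length (x * g * y) := by
    rw [hv3']
    exact cs.isRightDescent_iff.mp hvθ
  have h3p : cs.IsRightDescent v₃ p := by
    rw [hv3']
    exact F.d1 θ p _ hθp hvθ hvp
  have hlxg : cs.length (x * g * (y * cs.simple θ)) =
      cs.length (x * g) + cs.length (y * cs.simple θ) := by
    have h1 := hsub x g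
    have h2 := hsub (x * g) (y * cs.simple θ)
    rw [hv3] at hlv3
    omega
  have h33 : cs.IsRightDescent v₃ θ₃ := by
    rw [hv3]
    exact F.red _ _ _ hlxg h3
  -- the words after `v p`
  have e1 : x * g * y * cs.simple p * cs.simple θ = v₃ * cs.simple p := by
    rw [hv3', mul_assoc, F.comm p θ hpθ, ← mul_assoc]
  have f1 : cs.IsRightDescent (v₃ * cs.simple p) q := by
    have := F.d1 θ q _ hθq hvpθ hq
    rw [e1] at this
    exact this
  obtain ⟨f2, f3, f4⟩ := F.d7 θ q _ hθq hθq2 hvpθ hq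
  rw [e1] at f2 f3 f4
  by_cases h3q : θ₃ = q
  · subst h3q
    have hpq2 : M p θ₃ ≠ 2 := hMpq
    have g1 := (F.d7 p θ₃ v₃ hpq hpq2 h3p h33).1
    have g2 : cs.IsRightDescent (v₃ * cs.simple p * cs.simple θ₃ * cs.simple θ) p :=
      F.d1 θ p _ hθp f2 g1
    have g3 : cs.IsRightDescent (v₃ * cs.simple p * cs.simple θ₃ * cs.simple θ * cs.simple θ₃) p :=
      F.d1 θ₃ p _ hθ3p f3 g2
    have g4 := F.k1 _ θ₃ p θ hθ3p hθ3 hθp.symm f3 g2 g3 f4
    rw [M.symmetric] at g4
    exact hpq2 g4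
  · have g1 : cs.IsRightDescent (v₃ * cs.simple p) θ₃ := F.d1 p θ₃ _ hθ3p.symm h3p h33
    have g2 : M p θ₃ = 2 := F.k1 _ p θ₃ q hθ3p.symm hpq h3q h3p h33 g1 f1
    have g3 : M q θ₃ = 2 := F.cl1 _ q θ θ₃ h3q hθ3 f1 f2 g1
    exact hMpq (F.tr θ₃ p q (by rw [M.symmetric]; exact g2) (by rw [M.symmetric]; exact g3) hpq)

/-- parts (3) to (6), for the generators `a, p` -/
lemma part3 (F : RF cs) (hKD1 : KD1) (hKD2 : KD2) (hM : Lg M) (x g : W) (a p q θ : S)
    (hap : a ≠ p) (hpq : p ≠ q) (hMpq : M p q ≠ 2) (hθp : θ ≠ p) (hθq : θ ≠ q) (hθa : θ ≠ a)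
    (hx : XR cs {a, p} x) (hg : g ∈ par cs {a, p}) (hg2 : 2 ≤ cs.length g)
    (hl : cs.length (x * g * cs.simple θ) = cs.length x + cs.length g + 1)
    (hgp : cs.IsRightDescent g p) (hpθ : M p θ = 2) (hθq2 : M θ q ≠ 2)
    (hwθ : cs.IsRightDescent (x * g * cs.simple θ * cs.simple p) θ)
    (hwq : cs.IsRightDescent (x * g * cs.simple θ * cs.simple p) q) :
    q = a ∧ g = cs.simple a * cs.simple p ∧ cs.IsRightDescent x θ ∧
      cs.IsRightDescent (x * cs.simple θ) a ∧ cs.IsRightDescent (x * cs.simple a * cs.simple θ) a ∧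
      ¬ cs.IsRightDescent (x * cs.simple a) θ ∧
      ¬ cs.IsRightDescent (g * cs.simple θ * cs.simple p) a := by
  obtain ⟨h1, -, h3, -⟩ := hKD2 S W M cs
  have hma : M a p ≠ 0 := hM.fin a p
  obtain ⟨-, -, k3, -, -, k6, -⟩ := hKD1 S W M cs a p hap hma
  have hθp2 : M θ p = 2 := by rw [M.symmetric, hpθ]
  have hsa : cs.simple a ∈ par cs {a, p} :=
    Subgroup.subset_closure ⟨a, by simp, rfl⟩
  have hsp : cs.simple p ∈ par cs {a, p} :=
    Subgroup.subset_closure ⟨p, by simp, rfl⟩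
  have haI : a ∈ ({a, p} : Set S) := by simp
  have hpI : p ∈ ({a, p} : Set S) := by simp
  -- `g₁`
  obtain ⟨g₁, hg1⟩ : ∃ g₁, g₁ = g * cs.simple p := ⟨_, rfl⟩
  have hg1m : g₁ ∈ par cs {a, p} := by rw [hg1]; exact mul_mem hg hsp
  have hlg1 : cs.length g₁ + 1 = cs.length g := by
    rw [hg1]
    exact cs.isRightDescent_iff.mp hgp
  have hg1ne : g₁ ≠ 1 := by
    intro h
    rw [h, cs.length_one] at hlg1
    omega
  have hpg1 : ¬ cs.IsRightDescent g₁ p := by rw [hg1]; exact nd hgp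
  have hag1 : cs.IsRightDescent g₁ a := ((k3 g₁ hg1m).2 hg1ne).1.resolve_right hpg1
  -- the word `w = x g₁ θ`
  have ew : x * g * cs.simple θ * cs.simple p = x * g₁ * cs.simple θ := by
    rw [hg1, mul_assoc (x * g), F.comm θ p hθp2]
    group
  rw [ew] at hwθ hwq
  have f1 : cs.IsRightDescent (x * g₁) q := by
    have := F.d1 θ q _ hθq hwθ hwq
    rw [mm] at this
    exact this
  obtain ⟨f2, f3, f4⟩ := F.d7 θ q _ hθq hθq2 hwθ hwq
  rw [mm] at f2 f3 f4
  have haw1 : cs.IsRightDescent (x * g₁) a := (h3 {a, p} x g₁ a hx hg1m haI).mpr hag1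
  -- (4)
  have hqa : q = a := by
    by_contra hqa
    have g1 := F.cl1 _ q θ a (fun h => hqa h.symm) hθa.symm f1 f2 haw1
    have g2 : cs.IsRightDescent (x * g₁ * cs.simple q) a := F.d1 q a _ hqa f1 haw1
    have g3 : cs.IsRightDescent (x * g₁ * cs.simple q * cs.simple θ) a := F.d1 θ a _ hθa f2 g2
    have g4 := F.k1 _ θ a q hθa hθq (fun h => hqa h.symm) f2 g2 g3 f3
    exact hθq2 (F.tr a θ q (by rw [M.symmetric]; exact g4) (by rw [M.symmetric]; exact g1) hθq)
  subst hqa
  have hap2 : M q p ≠ 2 := by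
    intro h
    rw [M.symmetric] at h
    exact hMpq h
  -- (5)
  have hlg1' : cs.length g₁ = 1 := by
    by_contra hne
    have hla : cs.length (g₁ * cs.simple q) + 1 = cs.length g₁ := cs.isRightDescent_iff.mp hag1
    have hg2ne : g₁ * cs.simple q ≠ 1 := by
      intro h
      rw [h, cs.length_one] at hla
      omega
    have hg2m : g₁ * cs.simple q ∈ par cs {q, p} := mul_mem hg1m hsa
    have hpg2 : cs.IsRightDescent (g₁ * cs.simple q) p :=
      ((k3 _ hg2m).2 hg2ne).1.resolve_left (nd hag1)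
    have g0 : cs.IsRightDescent (x * g₁ * cs.simple q) p := by
      have := (h3 {q, p} x _ p hx hg2m hpI).mpr hpg2
      rw [← mul_assoc] at this
      exact this
    have g1 : cs.IsRightDescent (x * g₁ * cs.simple q * cs.simple θ) p := F.d1 θ p _ hθp f2 g0
    have g2 : cs.IsRightDescent (x * g₁ * cs.simple q * cs.simple θ * cs.simple q) p :=
      F.d1 q p _ hap f3 g1
    exact hap2 (F.k1 _ q p θ hap hθq.symm hθp.symm f3 g1 g2 f4)
  have hg1a : g₁ = cs.simple q := by
    rcases (k6 g₁ hg1m).1 hlg1' with h | h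
    · exact h
    · exfalso
      apply hpg1
      rw [h]
      have : cs.length (cs.simple p * cs.simple p) < cs.length (cs.simple p) := by
        rw [cs.simple_mul_simple_self, cs.length_one, cs.length_simple]
        exact Nat.zero_lt_one
      exact this
  have hgq : g = cs.simple q * cs.simple p := by
    have : g = g₁ * cs.simple p := by rw [hg1, mm]
    rw [this, hg1a]
  rw [hg1a, mm] at f2 f3 f4
  rw [hg1a] at hwθ hwq
  refine ⟨rfl, hgq, f2, f3, hwq, ?_, ?_⟩
  · -- the length of `x a θ`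
    intro h
    have h5 := cs.isRightDescent_iff.mp h
    have h6 := cs.length_mul_le x (cs.simple q)
    rw [cs.length_simple] at h6
    -- `x g θ p = x a θ`
    have h7 : cs.length (x * g * cs.simple θ * cs.simple p) + 1 = cs.length (x * g * cs.simple θ) ∨
        cs.length (x * g * cs.simple θ * cs.simple p) = cs.length (x * g * cs.simple θ) + 1 := by
      by_cases h8 : cs.IsRightDescent (x * g * cs.simple θ) p
      · exact Or.inl (cs.isRightDescent_iff.mp h8)
      · exact Or.inr (cs.not_isRightDescent_iff.mp h8)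
    rw [ew, hg1a] at h7
    omega
  · intro h
    have e2 : g * cs.simple θ * cs.simple p = cs.simple q * cs.simple θ := by
      rw [hgq, mul_assoc (cs.simple q * cs.simple p), F.comm θ p hθp2, ← mul_assoc, mm]
    rw [e2] at h
    have hqθ2 : M q θ ≠ 2 := by
      intro h2
      rw [M.symmetric] at h2
      exact hθq2 h2
    have hbig := hM.big q θ hθq.symm hqθ2
    obtain ⟨-, -, -, -, -, -, -, -, l2, l3, -⟩ := hKD1 S W M cs q θ hθq.symm (hM.fin q θ)
    have h9 := cs.isRightDescent_iff.mp h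
    rw [l2, l3 (by omega)] at h9
    omega

end

/-- **HARD.** -/
theorem t (hKD1 : KD1) (hKD2 : KD2) (hK1 : K1) : Pool.Agent.Helper74.LF.HARD := by
  intro S W _ M cs hM i j x g y p q hij hx hg hy hy1 hpq hMpq hl hyp hyq hgy hq
  have F : RF cs := rf cs hKD2 hK1 hM
  obtain ⟨θ, hθ⟩ := cs.exists_rightDescent_of_ne_one hy1
  obtain ⟨hpθ, hθq2, hvpθ, hθp, hθq, hyθ⟩ := part2 F x g y p q θ hpq hMpq hl hyp hyq hgy hq hθ
  subst hyθ
  obtain ⟨-, -, -, -, -, -, h7, -⟩ := hKD2 S W M cs
  obtain ⟨e, heI, hge, hey⟩ := h7 {i, j} g (cs.simple θ) p hg.1 hy hgy hyp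
  have hinj : Function.Injective cs.simple := (Pool.Agent.Helper15.AM.k_gpb S W M cs).1
  have hep : e = p := by
    apply hinj
    rw [← F.comm p θ hpθ] at hey
    exact mul_right_cancel hey
  subst hep
  have hθI : θ ∉ ({i, j} : Set S) := by
    intro h
    have h1 := hy θ h
    rw [cs.simple_mul_simple_self, cs.length_one] at h1
    omega
  have hθi : θ ≠ i := by
    rintro rfl
    exact hθI (by simp)
  have hθj : θ ≠ j := by
    rintro rfl
    exact hθI (by simp)
  have hMθ : M θ e = 2 := by rw [M.symmetric, hpθ]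
  obtain ⟨-, -, -, -, hfull, -⟩ := hKD1 S W M cs i j hij (hM.fin i j)
  have hg2 := ((hfull g).mp hg).2
  rw [cs.length_simple] at hl
  rcases heI with he | he
  · -- `p = i`
    subst he
    have hset : ({e, j} : Set S) = {j, e} := Set.pair_comm e j
    rw [hset] at hx
    have hgm := hg.1
    rw [hset] at hgm
    obtain ⟨r1, r2, r3, r4, r5, r6, r7⟩ := part3 F hKD1 hKD2 hM x g j e q θ hij.symm hpq hMpq hθp hθq hθj
      hx hgm hg2 hl hge hpθ hθq2 hvpθ hq
    subst r1
    exact ⟨θ, rfl, hMθ, Or.inl ⟨rfl, rfl⟩, hθq, r2, r3, r4, r5, r6, r7⟩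
  · rw [Set.mem_singleton_iff] at he
    subst he
    obtain ⟨r1, r2, r3, r4, r5, r6, r7⟩ := part3 F hKD1 hKD2 hM x g i e q θ hij hpq hMpq hθp hθq hθi
      hx hg.1 hg2 hl hge hpθ hθq2 hvpθ hq
    subst r1
    exact ⟨θ, rfl, hMθ, Or.inr ⟨rfl, rfl⟩, hθq, r2, r3, r4, r5, r6, r7⟩

end Pool.Agent.Helper74.LF.C_HARD
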