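import Pool.Agent.Helper74.LF.GoalsH

/-!
# Project LE (copied from the LL proof Helper89/LL/HM.lean): packet LL-HM (mirror images).
-/

set_option autoImplicit false

open LaurentPolynomial Pool.Agent.Helper15.RA Pool.Agent.Helper45.AM

noncomputable section

namespace Pool.Agent.Helper74.LF.C_HM

open Pool.Agent.Helper74.LF Pool.Agent.Helper74.LF Pool.Agent.Helper74.LF

theorem t (_hwt : HWT) : HM := by
  intro S W H _ _ _ X
  obtain ⟨⟨F, F1, F2, -, -, F5⟩, -, -, -, -, -⟩ := Pool.Agent.Helper15.AM.k_am S W H X.toBase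
  have hα : ∀ I : Set S, Sm X.M I → ∀ g ∈ par X.cs I, X.α g⁻¹ = X.α g := fun I hI g hg =>
    (Pool.Agent.Helper15.AM.k_ap S W H X.toBase I X.α (X.pg I hI)).2.2.2.1 g hg
  have hge : ∀ m w, X.Ge m w → X.Ge m w⁻¹ := by
    rintro m w ⟨u, g, u', I, hI, hg, rfl, hl, hm⟩
    refine ⟨u'⁻¹, g⁻¹, u⁻¹, I, hI, inv_mem hg, by simp only [mul_inv_rev, mul_assoc], ?_, ?_⟩
    · simp only [CoxeterSystem.length_inv]
      omega
    · rw [hα I hI g hg]
      exact hm
  have hge2 : ∀ m w, X.Ge m w⁻¹ ↔ X.Ge m w := fun m w =>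
    ⟨fun h => by simpa using hge m _ h, hge m w⟩
  refine ⟨hge2, ?_, ?_, ?_⟩
  · intro M k x g y h
    have hF : X.D.t x * X.D.t g * X.D.t y = F (X.D.t y⁻¹ * X.D.t g⁻¹ * X.D.t x⁻¹) := by
      rw [F2, F2, F1, F1, F1, inv_inv, inv_inv, inv_inv, mul_assoc]
    rw [hF]
    intro z hz
    rw [F5]
    have := h z⁻¹ (fun h1 => hz ((hge2 _ _).1 h1))
    exact ⟨this.1, fun h1 => (hge2 _ _).1 (this.2 h1)⟩
  · rintro x g y ⟨a, b, c, hac, hbc, hab, rfl, h1, h2, h3, h4⟩
    refine ⟨b, a, c, hbc, hac, ?_, ?_, ?_, ?_, ?_, ?_⟩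
    · rw [X.M.symmetric]
      exact hab
    · simp only [mul_inv_rev, CoxeterSystem.inv_simple]
    · rwa [X.cs.isRightDescent_inv_iff]
    · have e : y⁻¹ * X.cs.simple a * X.cs.simple b = (X.cs.simple b * X.cs.simple a * y)⁻¹ := by
        simp only [mul_inv_rev, CoxeterSystem.inv_simple, mul_assoc]
      rw [e, X.cs.isRightDescent_inv_iff]
      exact h2
    · have e : X.cs.simple c * x⁻¹ = (x * X.cs.simple c)⁻¹ := by
        simp only [mul_inv_rev, CoxeterSystem.inv_simple]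
      rw [e, X.cs.isLeftDescent_inv_iff]
      exact h3
    · have e : X.cs.simple a * X.cs.simple c * x⁻¹ = (x * X.cs.simple c * X.cs.simple a)⁻¹ := by
        simp only [mul_inv_rev, CoxeterSystem.inv_simple, mul_assoc]
      rw [e, X.cs.isLeftDescent_inv_iff]
      exact h4
  · rintro i j g ⟨h1, h2, h3⟩
    exact ⟨inv_mem h1, fun h => h2 (by simpa using inv_mem h), fun h => h3 (by simpa using inv_mem h)⟩

end Pool.Agent.Helper74.LF.C_HM
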