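import Pool.Agent.Helper74.LF.GoalsH

/-!
# Packet LL-HPB (MP_cc6379_al): degrees of the coefficients of `c_g`, `g` in a parabolic subgroup of rank at most two
-/

set_option autoImplicit false

open LaurentPolynomial Pool.Agent.Helper15.RA Pool.Agent.Helper45.AM Pool.Agent.Helper74.LF Pool.Agent.Helper74.LF

noncomputable section

namespace Pool.Agent.Helper74.LF.C_HPB

variable {S W H : Type} [Group W] [Ring H] [Algebra ℤ[T;T⁻¹] H]

theorem repr_mul_left (X : Base S W H) (Y Z : H) (z : W) :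
    X.D.t.repr (Y * Z) z = ∑ w ∈ (X.D.t.repr Z).support, X.D.t.repr Z w * X.D.t.repr (Y * X.D.t w) z := by
  conv_lhs => rw [← X.D.t.linearCombination_repr Z]
  rw [Finsupp.linearCombination_apply, Finsupp.sum, Finset.mul_sum, map_sum, Finsupp.finsetSum_apply]
  refine Finset.sum_congr rfl fun w _ => ?_
  rw [mul_smul_comm, map_smul, Finsupp.smul_apply, smul_eq_mul]

theorem deg_repr_t (X : Base S W H) (w z : W) : DegLE 0 (X.D.t.repr (X.D.t w) z) := by
  classical
  rw [Module.Basis.repr_self, Finsupp.single_apply]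
  split_ifs
  · exact DegLE.one le_rfl
  · exact DegLE.zero 0

theorem deg_simple (X : Base S W H) (i : S) (w z : W) :
    DegLE (X.L (X.cs.simple i)) (X.D.t.repr (X.D.t (X.cs.simple i) * X.D.t w) z) := by
  obtain ⟨-, h2, h3, -⟩ := g_h1 S W H X.M X.cs X.L X.D.toHecke0
  rcases X.cs.length_simple_mul w i with h | h
  · rw [h2 i w h]
    exact (deg_repr_t X _ z).mono (by positivity)
  · rw [h3 i w h, map_add, map_smul, Finsupp.add_apply, Finsupp.smul_apply, smul_eq_mul]
    refine DegLE.add ?_ ((deg_repr_t X _ z).mono (by positivity))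
    exact (DegLE.xi (X.L (X.cs.simple i))).mul_le (deg_repr_t X w z) (by simp)

theorem deg_left (X : Base S W H) {k : ℤ} {Z : H} (hZ : ∀ z, DegLE k (X.D.t.repr Z z)) (i : S) (z : W) :
    DegLE ((X.L (X.cs.simple i) : ℤ) + k) (X.D.t.repr (X.D.t (X.cs.simple i) * Z) z) := by
  rw [repr_mul_left]
  refine DegLE.sum fun w _ => ?_
  rw [add_comm]
  exact (hZ w).mul (deg_simple X i w z)

/-- The `T`-coordinates of `T_u Z` have degree at most `L(u⁻¹)` plus the maximal degree of those of `Z`. -/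
theorem deg_t (X : Base S W H) : ∀ (n : ℕ) (u : W), X.cs.length u = n → ∀ {k : ℤ} {Z : H},
    (∀ z, DegLE k (X.D.t.repr Z z)) → ∀ z, DegLE ((X.L u⁻¹ : ℤ) + k) (X.D.t.repr (X.D.t u * Z) z) := by
  intro n
  induction n with
  | zero =>
    intro u hu k Z hZ z
    have h1 : u = 1 := X.cs.length_eq_zero_iff.mp hu
    subst h1
    rw [(g_h1 S W H X.M X.cs X.L X.D.toHecke0).1, one_mul]
    exact (hZ z).mono (by linarith [Int.natCast_nonneg (X.L (1 : W)⁻¹)])
  | succ n ih =>
    intro u hu k Z hZ z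
    have hne : u ≠ 1 := by
      rintro rfl
      rw [X.cs.length_one] at hu
      omega
    obtain ⟨i, hi⟩ := X.cs.exists_leftDescent_of_ne_one hne
    rw [X.cs.isLeftDescent_iff] at hi
    have hlen : X.cs.length (X.cs.simple i * u) = n := by omega
    have hu2 : X.cs.simple i * (X.cs.simple i * u) = u := by
      rw [← mul_assoc, X.cs.simple_mul_simple_self, one_mul]
    obtain ⟨-, h2, -⟩ := g_h1 S W H X.M X.cs X.L X.D.toHecke0
    have h3 : X.D.t (X.cs.simple i) * X.D.t (X.cs.simple i * u) = X.D.t u := by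
      rw [h2 i (X.cs.simple i * u) (by rw [hu2]; omega), hu2]
    have hinv : u⁻¹ = (X.cs.simple i * u)⁻¹ * X.cs.simple i := by
      rw [mul_inv_rev, inv_mul_cancel_right]
    have hL : X.L u⁻¹ = X.L (X.cs.simple i * u)⁻¹ + X.L (X.cs.simple i) := by
      have h4 := X.wt.add (X.cs.simple i * u)⁻¹ (X.cs.simple i) (by
        rw [← hinv, X.cs.length_inv, X.cs.length_inv, X.cs.length_simple]
        omega)
      rw [← hinv] at h4
      exact h4
    rw [← h3, mul_assoc, hL]
    have h5 := deg_left X (ih (X.cs.simple i * u) hlen hZ) i z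
    refine h5.mono ?_
    push_cast
    linarith

theorem t : HPB := by
  classical
  intro S W H _ _ _ X I g g' hI hg hg'
  obtain ⟨ab1, -, -, -, ab5, -⟩ := Pool.Agent.Helper15.AM.k_ab S W H X.toBase
  obtain ⟨-, -, -, -, as5, as6, -⟩ := Pool.Agent.Helper15.AM.k_as S W H X.toBase I
  obtain ⟨t1, -, -, -, -, -, o1, o2⟩ := g_h1 S W H X.M X.cs X.L X.D.toHecke0
  obtain ⟨-, -, -, c4, -, c6, -⟩ := g_h2 S W H X.M X.cs X.L X.wt X.D
  have hpg := X.pg I hI
  -- degrees of the coordinates of `c_g`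
  have hc : ∀ z, DegLE 0 (X.D.t.repr (X.D.c g) z) := by
    intro z
    by_cases hz : z = g
    · subst hz
      rw [c4]
      exact DegLE.one le_rfl
    · exact (c6 g z hz).mono (by norm_num)
  -- degrees of the coordinates of `T_u c_g`
  have hT : ∀ z, DegLE ((X.L g' : ℤ)) (X.D.t.repr (X.D.t g'⁻¹ * X.D.c g) z) := by
    intro z
    have := deg_t X.toBase _ g'⁻¹ rfl hc z
    rwa [inv_inv, add_zero] at this
  have hη := (ab5 (X.L g' : ℤ) (X.D.t g'⁻¹ * X.D.c g)).mp hT
  -- support of the `c`-coordinates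
  have hrep : ∀ k, X.b.repr (X.D.t g'⁻¹ * X.D.c g) k =
      ∑ w ∈ (X.b.repr (X.D.t g'⁻¹)).support, X.b.repr (X.D.t g'⁻¹) w * X.h w g k := by
    intro k
    conv_lhs => rw [← X.b.linearCombination_repr (X.D.t g'⁻¹)]
    rw [Finsupp.linearCombination_apply, Finsupp.sum, Finset.sum_mul, map_sum, Finsupp.finsetSum_apply]
    refine Finset.sum_congr rfl fun w _ => ?_
    rw [smul_mul_assoc, map_smul, Finsupp.smul_apply, smul_eq_mul, X.hb, ab1]
  have hsupp : ∀ k, X.b.repr (X.D.t g'⁻¹ * X.D.c g) k ≠ 0 → k ∈ par X.cs I ∧ X.α g ≤ X.α k := by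
    intro k hk
    rw [hrep] at hk
    obtain ⟨w, _, hw2⟩ := Finset.exists_ne_zero_of_sum_ne_zero hk
    have hw3 := left_ne_zero_of_mul hw2
    have hw4 := right_ne_zero_of_mul hw2
    have hwI : w ∈ par X.cs I := as5 g'⁻¹ (inv_mem hg') w hw3
    have hkI : k ∈ par X.cs I := as6 w hwI g hg k hw4
    exact ⟨hkI, (hpg.p4 w hwI g hg k hkI hw4).2⟩
  -- the `T_1`-coordinate of `T_u c_g` in terms of the `c`-coordinates
  have h1 : X.D.t.repr (X.D.t g'⁻¹ * X.D.c g) 1 =
      ∑ k ∈ (X.b.repr (X.D.t g'⁻¹ * X.D.c g)).support,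
        X.b.repr (X.D.t g'⁻¹ * X.D.c g) k * X.D.t.repr (X.D.c k) 1 := by
    conv_lhs => rw [← X.b.linearCombination_repr (X.D.t g'⁻¹ * X.D.c g)]
    rw [Finsupp.linearCombination_apply, Finsupp.sum, map_sum, Finsupp.finsetSum_apply]
    refine Finset.sum_congr rfl fun w _ => ?_
    rw [map_smul, Finsupp.smul_apply, smul_eq_mul, X.hb]
  -- the `T_1`-coordinate of `T_u c_g` in terms of the `T`-coordinates of `c_g`
  have h2 : X.D.t.repr (X.D.t g'⁻¹ * X.D.c g) 1 = X.D.t.repr (X.D.c g) g' := by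
    rw [repr_mul_left X.toBase]
    by_cases hs : g' ∈ (X.D.t.repr (X.D.c g)).support
    · rw [Finset.sum_eq_single_of_mem g' hs]
      · rw [o1 g'⁻¹ g' (inv_mul_cancel g'), mul_one]
      · intro w _ hw
        rw [o2 g'⁻¹ w (fun h => hw (by rw [inv_mul_eq_one] at h; exact h.symm)), mul_zero]
    · rw [Finsupp.notMem_support_iff.mp hs]
      refine Finset.sum_eq_zero fun w hw => ?_
      have hne : w ≠ g' := fun e => hs (e ▸ hw)
      rw [o2 g'⁻¹ w (fun h => hne (by rw [inv_mul_eq_one] at h; exact h.symm)), mul_zero]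
  rw [← h2, h1]
  refine DegLE.sum fun k hk => ?_
  obtain ⟨hkI, hka⟩ := hsupp k (Finsupp.mem_support_iff.mp hk)
  refine (hη k).mul_le (hpg.p1 k hkI) ?_
  have : (X.α g : ℤ) ≤ X.α k := by exact_mod_cast hka
  linarith

end Pool.Agent.Helper74.LF.C_HPB
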