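import Pool.Agent.Helper74.LF.GoalsH

/-!
# Project LE (copied from the LL proof Helper98/LL/HRL.lean): packet LL-HRL
-/

set_option autoImplicit false

open LaurentPolynomial Pool.Agent.Helper15.RA Pool.Agent.Helper45.AM

noncomputable section

namespace Pool.Agent.Helper74.LF.C_HRL

open Pool.Agent.Helper74.LF Pool.Agent.Helper74.LF Pool.Agent.Helper74.LF.TF

theorem t (kd1 : KD1) (hw0 : HW0) : HRL := by
  classical
  intro S W H _ _ _ X M k a c Z hac hId hGe
  obtain ⟨-, -, h3⟩ := hw0 S W H X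
  obtain ⟨-, hz0, hzT⟩ := h3 a c hac
  have hwI : w0 X.cs a c ∈ par X.cs ({a, c} : Set S) := (kd1 S W X.M X.cs a c hac (X.fin a c)).1.1
  have hcV : X.D.c (w0 X.cs a c) ∈ X.Vm M := X.c_mem_Vm hGe
  obtain ⟨-, -, hPA⟩ := Pool.Agent.Helper15.AM.k_gpa S W X.M X.cs ({a, c} : Set S)
  obtain ⟨-, -, -, -, hPC, -, -⟩ := Pool.Agent.Helper15.AM.k_gpc S W X.M X.cs ({a, c} : Set S)
  generalize w0 X.cs a c = w at *
  obtain ⟨σ, hσ⟩ : ∃ σ, σ = X.D.t.repr (X.D.c w) := ⟨_, rfl⟩
  rw [← hσ] at hz0 hzT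
  have hσw : σ w = 1 := by rw [hzT w hwI]; simp
  have hws : w ∈ σ.support := by
    rw [Finsupp.mem_support_iff, hσw]
    exact one_ne_zero
  have hsI : ∀ z ∈ σ.support, z ∈ par X.cs ({a, c} : Set S) := by
    intro z hz
    by_contra hc
    exact Finsupp.mem_support_iff.1 hz (hz0 z hc)
  have hsum : X.D.c w = ∑ z ∈ σ.support, σ z • X.D.t z := by
    rw [hσ]
    conv_lhs => rw [← X.D.t.linearCombination_repr (X.D.c w), Finsupp.linearCombination_apply]
    rfl
  constructor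
  · intro x hx h
    have e1 : X.D.t x * X.D.c w * Z = ∑ z ∈ σ.support, σ z • (X.D.t (x * z) * Z) := by
      rw [hsum, Finset.mul_sum, Finset.sum_mul]
      refine Finset.sum_congr rfl fun z hz => ?_
      rw [mul_smul_comm, smul_mul_assoc, X.D.mul x z (hPA x hx z (hsI z hz))]
    rw [← Finset.add_sum_erase _ _ hws, hσw, one_smul] at e1
    refine LP.congr (Z := -∑ z ∈ σ.support.erase w, σ z • (X.D.t (x * z) * Z)) ?_ ?_
    · rw [sub_neg_eq_add, ← e1]
      exact X.Vm_mul_right hId Z (X.Vm_mul_left hId _ hcV)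
    · refine LP.neg (LP.sum fun z hz => ?_)
      have hzI := hsI z (Finset.mem_of_mem_erase hz)
      rw [hzT z hzI]
      exact LP.smul_T (h z hzI (Finset.ne_of_mem_erase hz)) (by omega)
  · intro y hy h
    have e1 : Z * X.D.c w * X.D.t y = ∑ z ∈ σ.support, σ z • (Z * X.D.t (z * y)) := by
      rw [hsum, Finset.mul_sum, Finset.sum_mul]
      refine Finset.sum_congr rfl fun z hz => ?_
      rw [mul_smul_comm, smul_mul_assoc, mul_assoc, X.D.mul z y (hPC y hy z (hsI z hz))]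
    rw [← Finset.add_sum_erase _ _ hws, hσw, one_smul] at e1
    refine LP.congr (Z := -∑ z ∈ σ.support.erase w, σ z • (Z * X.D.t (z * y))) ?_ ?_
    · rw [sub_neg_eq_add, ← e1]
      exact X.Vm_mul_right hId _ (X.Vm_mul_left hId _ hcV)
    · refine LP.neg (LP.sum fun z hz => ?_)
      have hzI := hsI z (Finset.mem_of_mem_erase hz)
      rw [hzT z hzI]
      exact LP.smul_T (h z hzI (Finset.ne_of_mem_erase hz)) (by omega)

end Pool.Agent.Helper74.LF.C_HRL
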