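import Pool.Agent.Helper74.LF.P.HN

/-!
# Project LF, HT: triples that are not tight
-/

set_option autoImplicit false

noncomputable section

namespace Pool.Agent.Helper74.LF.C_HT

open LaurentPolynomial Pool.Agent.Helper15.RA Pool.Agent.Helper45.AM Pool.Agent.Helper74.LF

/-- Packet LF-HT. -/
theorem t : HT := by
  classical
  intro S W H _ _ _ X M n hB I x g y hC hx hg hy hT hn
  have hT' : ∃ v, v ∉ I ∧ (∀ i ∈ I, X.M v i = 2) ∧ (X.cs.IsRightDescent x v ∨ X.cs.IsLeftDescent y v) := by
    by_contra hcon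
    apply hT
    intro v hv hvi
    constructor
    · intro h
      exact hcon ⟨v, hv, hvi, Or.inl h⟩
    · intro h
      exact hcon ⟨v, hv, hvi, Or.inr h⟩
  obtain ⟨v, hv, hvi, hd⟩ := hT'
  have hCQ : Cm X.M (I ∪ {v}) := by
    rintro i (hi | hi) j (hj | hj) hij
    · exact hC i hi j hj hij
    · rw [Set.mem_singleton_iff] at hj
      subst hj
      rw [X.M.symmetric]
      exact hvi i hi
    · rw [Set.mem_singleton_iff] at hi
      subst hi
      exact hvi j hj
    · rw [Set.mem_singleton_iff] at hi hj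
      exact absurd (hi.trans hj.symm) hij
  exact C_HN.step X M n hB I (I ∪ {v}) hC.sm hCQ.sm Set.subset_union_left x g y hx hg hy (by omega)
    ⟨v, Set.mem_union_right _ rfl, hd⟩

end Pool.Agent.Helper74.LF.C_HT
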