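import Pool.Agent.Helper74.LF.GoalsH

/-!
# Packet LL-HW0: the elements `c_(w0)` and the values `α(1)`, `α(s_i)`, `α(w0)`.
-/

set_option autoImplicit false

open LaurentPolynomial Pool.Agent.Helper15.RA Pool.Agent.Helper45.AM

noncomputable section

namespace Pool.Agent.Helper74.LF.C_HW0

open Pool.Agent.Helper74.LF Pool.Agent.Helper74.LF Pool.Agent.Helper74.LF

section base

variable {S W H : Type} [Group W] [Ring H] [Algebra ℤ[T;T⁻¹] H] (X : Base S W H)

open Classical in
/-- the coordinates of `T_s Y` -/
theorem repr_ts (i : S) (Y : H) (z : W) :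
    X.D.t.repr (X.D.t (X.cs.simple i) * Y) z =
      X.D.t.repr Y (X.cs.simple i * z) +
        (if X.cs.length (X.cs.simple i * z) < X.cs.length z then xi (X.L (X.cs.simple i)) else 0) *
          X.D.t.repr Y z := by
  obtain ⟨-, h1, h2, -⟩ := g_h1 S W H X.M X.cs X.L X.D.toHecke0
  have key : (Finsupp.lapply z : (W →₀ ℤ[T;T⁻¹]) →ₗ[ℤ[T;T⁻¹]] ℤ[T;T⁻¹]) ∘ₗ X.D.t.repr.toLinearMap ∘ₗ
      LinearMap.mulLeft ℤ[T;T⁻¹] (X.D.t (X.cs.simple i)) =
      (Finsupp.lapply (X.cs.simple i * z) : (W →₀ ℤ[T;T⁻¹]) →ₗ[ℤ[T;T⁻¹]] ℤ[T;T⁻¹]) ∘ₗ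
        X.D.t.repr.toLinearMap +
      (if X.cs.length (X.cs.simple i * z) < X.cs.length z then xi (X.L (X.cs.simple i)) else 0) •
        ((Finsupp.lapply z : (W →₀ ℤ[T;T⁻¹]) →ₗ[ℤ[T;T⁻¹]] ℤ[T;T⁻¹]) ∘ₗ X.D.t.repr.toLinearMap) := by
    refine X.D.t.ext fun w => ?_
    have hiff : X.cs.simple i * w = z ↔ w = X.cs.simple i * z := by
      constructor
      · rintro rfl
        rw [X.cs.simple_mul_simple_cancel_left]
      · rintro rfl
        rw [X.cs.simple_mul_simple_cancel_left]
    simp only [LinearMap.comp_apply, LinearMap.mulLeft_apply, LinearEquiv.coe_coe, Finsupp.lapply_apply,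
      LinearMap.add_apply, LinearMap.smul_apply, smul_eq_mul]
    rcases X.cs.length_simple_mul w i with h | h
    · rw [h1 i w h, Module.Basis.repr_self, Module.Basis.repr_self, Finsupp.single_apply,
        Finsupp.single_apply, Finsupp.single_apply]
      by_cases hwz : w = z
      · subst hwz
        rw [if_neg (by omega : ¬ X.cs.length (X.cs.simple i * w) < X.cs.length w), zero_mul, add_zero]
        simp only [hiff]
      · rw [if_neg hwz, mul_zero, add_zero]
        simp only [hiff]
    · rw [h2 i w h, map_add, map_smul, Module.Basis.repr_self, Module.Basis.repr_self, Finsupp.add_apply,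
        Finsupp.smul_apply, Finsupp.single_apply, Finsupp.single_apply, Finsupp.single_apply, smul_eq_mul]
      by_cases hwz : w = z
      · subst hwz
        rw [if_pos (by omega : X.cs.length (X.cs.simple i * w) < X.cs.length w), add_comm]
        simp only [hiff]
      · rw [if_neg hwz, mul_zero, mul_zero, add_zero, zero_add]
        simp only [hiff]
  have := LinearMap.congr_fun key Y
  simpa only [LinearMap.comp_apply, LinearMap.mulLeft_apply, LinearEquiv.coe_coe, Finsupp.lapply_apply,
      LinearMap.add_apply, LinearMap.smul_apply, smul_eq_mul] using this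

theorem T_mul_eq_zero {n : ℤ} {p : ℤ[T;T⁻¹]} (h : T n * p = 0) : p = 0 := by
  have h1 : T (-n) * (T n * p) = 0 := by rw [h, mul_zero]
  rwa [← mul_assoc, ← T_add, neg_add_cancel, T_zero, one_mul] at h1

/-- `T_s c_w = v^(L s) c_w` if `s w < w` -/
theorem kl (w : W) (i : S) (h : X.cs.length (X.cs.simple i * w) < X.cs.length w) :
    X.D.t (X.cs.simple i) * X.D.c w = (T (X.L (X.cs.simple i) : ℤ) : ℤ[T;T⁻¹]) • X.D.c w := by
  classical
  obtain ⟨h1, h2, h3, h4, h5, h6, h7, h8, h9, h10⟩ := g_h2 S W H X.M X.cs X.L X.wt X.D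
  have hLs : 1 ≤ X.L (X.cs.simple i) := by
    apply X.wt.pos
    intro e
    have := X.cs.length_simple i
    rw [e, X.cs.length_one] at this
    omega
  set s := X.cs.simple i with hs
  have hss : ∀ z, s * (s * z) = z := fun z => X.cs.simple_mul_simple_cancel_left i
  set Z := X.D.t s * X.D.c w - (T (X.L s : ℤ) : ℤ[T;T⁻¹]) • X.D.c w with hZ
  have hbar : X.D.bar Z = Z := by
    have e1 : Z = X.D.c s * X.D.c w - ((T (X.L s : ℤ) : ℤ[T;T⁻¹]) + T (-(X.L s : ℤ))) • X.D.c w := by
      rw [h9 i, add_mul, add_smul, smul_mul_assoc, one_mul, hZ]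
      abel
    rw [e1, map_sub, map_mul, X.D.bar_c, X.D.bar_c, h1, X.D.bar_c, map_add, invert_T, invert_T, neg_neg,
      add_comm (T (-(X.L s : ℤ)))]
  have hc : ∀ z, X.cs.length z < X.cs.length (s * z) →
      X.D.t.repr Z (s * z) = - (T (-(X.L s : ℤ)) * X.D.t.repr Z z) ∧ DegLE (-1) (X.D.t.repr Z (s * z)) := by
    intro z hz
    have e1 : X.D.t.repr Z z = X.D.t.repr (X.D.c w) (s * z) - T (X.L s : ℤ) * X.D.t.repr (X.D.c w) z := by
      rw [hZ, map_sub, map_smul, Finsupp.sub_apply, Finsupp.smul_apply, smul_eq_mul, repr_ts X i,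
        if_neg (by rw [← hs]; omega), zero_mul, add_zero]
    have e2 : X.D.t.repr Z (s * z) = X.D.t.repr (X.D.c w) z -
        T (-(X.L s : ℤ)) * X.D.t.repr (X.D.c w) (s * z) := by
      rw [hZ, map_sub, map_smul, Finsupp.sub_apply, Finsupp.smul_apply, smul_eq_mul, repr_ts X i,
        ← hs, hss, if_pos hz, xi]
      ring
    have hzw : z ≠ w := by
      rintro rfl
      omega
    refine ⟨?_, ?_⟩
    · rw [e1, e2, mul_sub, ← mul_assoc, ← T_add, neg_add_cancel, T_zero, one_mul]
      ring
    · rw [e2]
      refine (h6 w z hzw).sub ?_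
      have hp : DegLE 0 (X.D.t.repr (X.D.c w) (s * z)) := by
        by_cases e : s * z = w
        · rw [e, h4]
          exact DegLE.one le_rfl
        · exact (h6 w _ e).mono (by norm_num)
      exact (DegLE.T_le le_rfl).mul_le hp (by omega)
  have hZ0 : Z = 0 := by
    by_contra hne
    have hsup : (X.D.t.repr Z).support.Nonempty := by
      rw [Finsupp.support_nonempty_iff]
      intro h0
      exact hne (by simpa using h0)
    obtain ⟨y, hy, hmax⟩ := Finset.exists_max_image _ X.cs.length hsup
    have hy0 : X.D.t.repr Z y ≠ 0 := Finsupp.mem_support_iff.1 hy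
    apply hy0
    rcases X.cs.length_simple_mul y i with hl | hl
    · rw [← hs] at hl
      have h11 := (hc y (by omega)).1
      have h0 : X.D.t.repr Z (s * y) = 0 := by
        by_contra hh
        have := hmax _ (Finsupp.mem_support_iff.2 hh)
        omega
      rw [h0] at h11
      exact T_mul_eq_zero (neg_eq_zero.1 h11.symm)
    · rw [← hs] at hl
      have hd : DegLE (-1) (X.D.t.repr Z y) := by
        have := (hc (s * y) (by rw [hss]; omega)).2
        rwa [hss] at this
      refine eq_zero_of_invert hd ?_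
      have e3 : X.D.t.repr Z y = X.D.t.repr (X.D.bar (∑ u ∈ (X.D.t.repr Z).support, X.D.t.repr Z u • X.D.t u)) y := by
        have e4 : ∑ u ∈ (X.D.t.repr Z).support, X.D.t.repr Z u • X.D.t u = Z := by
          conv_rhs => rw [← X.D.t.linearCombination_repr Z, Finsupp.linearCombination_apply, Finsupp.sum]
        rw [e4, hbar]
      rw [map_sum, map_sum, Finsupp.finsetSum_apply, Finset.sum_eq_single y] at e3
      · rw [h1, map_smul, Finsupp.smul_apply, h2, smul_eq_mul, mul_one] at e3
        exact e3.symm
      · intro u hu huy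
        rw [h1, map_smul, Finsupp.smul_apply, smul_eq_mul]
        have : X.D.t.repr (X.D.bar (X.D.t u)) y = 0 := by
          by_contra hh
          rcases h3 u y hh with h12 | h12
          · exact huy h12.symm
          · have := hmax u hu
            omega
        rw [this, mul_zero]
      · intro h0
        exact absurd hy h0
  exact sub_eq_zero.1 hZ0

end base

theorem t (hKD1 : KD1) (hHWT : HWT) : Pool.Agent.Helper74.LF.HW0 := by
  classical
  intro S W H _ _ _ X
  obtain ⟨hL1, hLs, hLinv, hw⟩ := hHWT S W H X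
  obtain ⟨h1, h2, h3, h4, h5, h6, h7, h8, h9, h10⟩ := g_h2 S W H X.M X.cs X.L X.wt X.D
  have hrc : ∀ y z, X.b.repr (X.D.c y * X.D.c z) = X.h y z := fun y z => X.repr_mul_c y z
  refine ⟨?_, ?_, ?_⟩
  · exact (Pool.Agent.Helper15.AM.k_ap S W H X.toBase ∅ X.α (X.pg ∅ (sm_empty _))).2.2.2.2.1
  · intro i
    have hpg := X.pg {i} (Or.inr ⟨i, i, by simp⟩)
    have hmem : X.cs.simple i ∈ par X.cs ({i} : Set S) :=
      Subgroup.subset_closure ⟨i, rfl, rfl⟩
    have hone : (1 : W) ≠ X.cs.simple i := by
      intro e
      have := X.cs.length_simple i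
      rw [← e, X.cs.length_one] at this
      omega
    apply le_antisymm
    · have h11 := hpg.p1 _ hmem
      have e : X.D.t.repr (X.D.c (X.cs.simple i)) 1 = T (-(X.L (X.cs.simple i) : ℤ)) := by
        obtain ⟨g1, -⟩ := g_h1 S W H X.M X.cs X.L X.D.toHecke0
        rw [h9 i, ← g1, map_add, map_smul, Module.Basis.repr_self, Module.Basis.repr_self,
          Finsupp.add_apply, Finsupp.smul_apply, Finsupp.single_apply, Finsupp.single_apply,
          if_neg (Ne.symm hone), if_pos rfl, zero_add, smul_eq_mul, mul_one]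
      rw [e] at h11
      by_contra hc
      have h12 := h11 (-(X.L (X.cs.simple i) : ℤ)) (by omega)
      rw [T_apply, if_pos rfl] at h12
      exact one_ne_zero h12
    · have h11 := hpg.deg _ hmem _ hmem _ hmem
      have e : X.h (X.cs.simple i) (X.cs.simple i) (X.cs.simple i) = dl (X.L (X.cs.simple i)) := by
        rw [← hrc, h10 i, map_smul, Finsupp.smul_apply, ← X.hb, Module.Basis.repr_self,
          Finsupp.single_apply, if_pos rfl, smul_eq_mul, mul_one]
      rw [e] at h11
      by_contra hc
      have h12 := h11 (X.L (X.cs.simple i) : ℤ) (by omega)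
      have h13 := hLs i
      rw [dl, AddMonoidAlgebra.coeff_add, Finsupp.add_apply, T_apply, T_apply, if_pos rfl,
        if_neg (by omega)] at h12
      simp at h12
  · intro a c hac
    have hm0 : X.M a c ≠ 0 := X.fin a c
    obtain ⟨⟨hw0m, -, -, hw0l, -⟩, hk2, hk3, hk4, -⟩ := hKD1 S W X.M X.cs a c hac hm0
    obtain ⟨-, -, -, -, -, -, hwz⟩ := hw a c hac
    set w := w0 X.cs a c with hwdef
    have hsm : ∀ i ∈ ({a, c} : Set S), X.cs.simple i ∈ par X.cs ({a, c} : Set S) := fun i hi =>
      Subgroup.subset_closure ⟨i, hi, rfl⟩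
    have hdesc : ∀ i ∈ ({a, c} : Set S), X.cs.length (X.cs.simple i * w) < X.cs.length w := by
      intro i hi
      rcases hi with rfl | hi
      · exact hk4.2.2.1
      · rw [Set.mem_singleton_iff] at hi
        subst hi
        exact hk4.2.2.2
    have hkl : ∀ i ∈ ({a, c} : Set S), X.D.t (X.cs.simple i) * X.D.c w =
        (T (X.L (X.cs.simple i) : ℤ) : ℤ[T;T⁻¹]) • X.D.c w := fun i hi => kl X.toBase w i (hdesc i hi)
    have hout : ∀ z, z ∉ par X.cs {a, c} → X.D.t.repr (X.D.c w) z = 0 := by
      intro z hz
      by_contra hh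
      exact hz ((Pool.Agent.Helper15.AM.k_as S W H X.toBase {a, c}).2.2.2.1 w hw0m z hh)
    have hco : ∀ n, ∀ z ∈ par X.cs {a, c}, X.cs.length z + n = X.M a c →
        X.D.t.repr (X.D.c w) z = T ((X.L z : ℤ) - X.L w) := by
      intro n
      induction n with
      | zero =>
        intro z hz hzl
        have : z = w := by
          by_contra hne
          have := (hk2 z hz).2.1 hne
          omega
        subst this
        rw [h4, sub_self, T_zero]
      | succ n ih =>
        intro z hz hzl
        have hne : z ≠ w := by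
          rintro rfl
          omega
        have hnd := ((hk3 z hz).1 hne).2
        obtain ⟨i, hi, hnd'⟩ : ∃ i ∈ ({a, c} : Set S), ¬ X.cs.IsLeftDescent z i := by
          by_contra hh
          push Not at hh
          exact hnd ⟨hh a (by simp), hh c (by simp)⟩
        have hl : X.cs.length (X.cs.simple i * z) = X.cs.length z + 1 := X.cs.not_isLeftDescent_iff.1 hnd'
        have h11 := ih (X.cs.simple i * z) (Subgroup.mul_mem _ (hsm i hi) hz) (by omega)
        have h12 : X.L (X.cs.simple i * z) = X.L (X.cs.simple i) + X.L z := by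
          apply X.wt.add
          rw [hl, X.cs.length_simple]
          omega
        have h13 := repr_ts X.toBase i (X.D.c w) z
        rw [hkl i hi, if_neg (by omega), zero_mul, add_zero, h11, map_smul, Finsupp.smul_apply,
          smul_eq_mul, h12] at h13
        have h14 : X.D.t.repr (X.D.c w) z =
            T (-(X.L (X.cs.simple i) : ℤ)) * (T (X.L (X.cs.simple i) : ℤ) * X.D.t.repr (X.D.c w) z) := by
          rw [← mul_assoc, ← T_add, neg_add_cancel, T_zero, one_mul]
        rw [h14, h13, ← T_add]
        congr 1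
        push_cast
        ring
    have hco' : ∀ z ∈ par X.cs {a, c}, X.D.t.repr (X.D.c w) z = T ((X.L z : ℤ) - X.L w) := fun z hz =>
      hco (X.M a c - X.cs.length z) z hz (by have := (hk2 z hz).1; omega)
    refine ⟨?_, hout, hco'⟩
    have hpg := X.pg {a, c} (Or.inr ⟨a, c, rfl⟩)
    apply le_antisymm
    · have h11 := hpg.p1 _ hw0m
      rw [hco' 1 (Subgroup.one_mem _), hL1] at h11
      by_contra hc
      have h12 := h11 (((0 : ℕ) : ℤ) - X.L w) (by push_cast; omega)
      rw [T_apply, if_pos rfl] at h12
      exact one_ne_zero h12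
    · -- `T_z c_w = v^(L z) c_w`
      obtain ⟨g1, g2, -⟩ := g_h1 S W H X.M X.cs X.L X.D.toHecke0
      have hT : ∀ n, ∀ z ∈ par X.cs {a, c}, X.cs.length z = n →
          X.D.t z * X.D.c w = (T (X.L z : ℤ) : ℤ[T;T⁻¹]) • X.D.c w := by
        intro n
        induction n with
        | zero =>
          intro z _ hzl
          rw [X.cs.length_eq_zero_iff] at hzl
          subst hzl
          rw [g1, one_mul, hL1, Nat.cast_zero, T_zero, one_smul]
        | succ n ih =>
          intro z hz hzl
          have hne : z ≠ 1 := by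
            rintro rfl
            rw [X.cs.length_one] at hzl
            omega
          obtain ⟨i, hi, hd⟩ : ∃ i ∈ ({a, c} : Set S), X.cs.IsLeftDescent z i := by
            rcases ((hk3 z hz).2 hne).2 with h | h
            · exact ⟨a, by simp, h⟩
            · exact ⟨c, by simp, h⟩
          have hl : X.cs.length (X.cs.simple i * z) + 1 = X.cs.length z := X.cs.isLeftDescent_iff.1 hd
          have h11 := ih (X.cs.simple i * z) (Subgroup.mul_mem _ (hsm i hi) hz) (by omega)
          have hz' : X.cs.simple i * (X.cs.simple i * z) = z := X.cs.simple_mul_simple_cancel_left i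
          have h12 : X.L z = X.L (X.cs.simple i) + X.L (X.cs.simple i * z) := by
            conv_lhs => rw [← hz']
            apply X.wt.add
            rw [hz', X.cs.length_simple]
            omega
          have h13 : X.D.t (X.cs.simple i) * X.D.t (X.cs.simple i * z) = X.D.t z := by
            rw [g2 i (X.cs.simple i * z) (by rw [hz']; omega), hz']
          rw [← h13, mul_assoc, h11, mul_smul_comm, hkl i hi, smul_smul, ← T_add, h12]
          congr 2
          push_cast
          ring
      have hprod : X.D.c w * X.D.c w =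
          (∑ z ∈ (X.D.t.repr (X.D.c w)).support, (T (2 * (X.L z : ℤ) - X.L w) : ℤ[T;T⁻¹])) • X.D.c w := by
        have e1 : X.D.c w = ∑ z ∈ (X.D.t.repr (X.D.c w)).support, X.D.t.repr (X.D.c w) z • X.D.t z := by
          conv_lhs => rw [← X.D.t.linearCombination_repr (X.D.c w), Finsupp.linearCombination_apply,
            Finsupp.sum]
        conv_lhs =>
          arg 1
          rw [e1]
        rw [Finset.sum_mul, Finset.sum_smul]
        refine Finset.sum_congr rfl fun z hz => ?_
        have hzp : z ∈ par X.cs {a, c} := by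
          by_contra hh
          exact Finsupp.mem_support_iff.1 hz (hout z hh)
        rw [smul_mul_assoc, hT _ z hzp rfl, smul_smul, hco' z hzp, ← T_add]
        congr 2
        ring
      have hh : X.h w w w = ∑ z ∈ (X.D.t.repr (X.D.c w)).support, (T (2 * (X.L z : ℤ) - X.L w) : ℤ[T;T⁻¹]) := by
        rw [← hrc, hprod, map_smul, Finsupp.smul_apply, ← X.hb, Module.Basis.repr_self,
          Finsupp.single_apply, if_pos rfl, smul_eq_mul, mul_one]
      have h11 := hpg.deg w hw0m w hw0m w hw0m
      by_contra hc
      have h12 := h11 (X.L w : ℤ) (by omega)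
      rw [hh] at h12
      have hcs : ∀ (s : Finset W), (∑ z ∈ s, (T (2 * (X.L z : ℤ) - X.L w) : ℤ[T;T⁻¹])).coeff (X.L w : ℤ) =
          ∑ z ∈ s, (T (2 * (X.L z : ℤ) - X.L w) : ℤ[T;T⁻¹]).coeff (X.L w : ℤ) := by
        intro s
        induction s using Finset.induction_on with
        | empty => simp
        | insert z s hz ih =>
          rw [Finset.sum_insert hz, Finset.sum_insert hz, AddMonoidAlgebra.coeff_add, Finsupp.add_apply, ih]
      rw [hcs, Finset.sum_eq_single w] at h12
      · rw [T_apply, if_pos (by ring)] at h12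
        exact one_ne_zero h12
      · intro z hz hzw
        have hzp : z ∈ par X.cs {a, c} := by
          by_contra hh
          exact Finsupp.mem_support_iff.1 hz (hout z hh)
        have hlt := (hwz z hzp hzw).1
        rw [T_apply, if_neg (by omega)]
      · intro hns
        rw [Finsupp.notMem_support_iff, h4] at hns
        exact absurd hns one_ne_zero

end Pool.Agent.Helper74.LF.C_HW0
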