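import Pool.Agent.Helper74.LF.GoalsI

/-!
# Project LE (copied from the LL proof Helper66/LL/IGE.lean) (MP_cc6379_al), packet IGE: the relation `Ge`
-/

set_option autoImplicit false

open LaurentPolynomial Pool.Agent.Helper15.RA Pool.Agent.Helper45.AM

noncomputable section

namespace Pool.Agent.Helper74.LF.C_IGE

open Pool.Agent.Helper74.LF Pool.Agent.Helper74.LF Pool.Agent.Helper74.LF

variable {S W H : Type} [Group W] [Ring H] [Algebra ℤ[T;T⁻¹] H] (X : TF S W H)

/-- lengths of the parts of a reduced product of three elements -/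
theorem len3 {M : CoxeterMatrix S} (cs : CoxeterSystem M W) {w u g v : W} (hw : w = u * g * v)
    (hl : cs.length w = cs.length u + cs.length g + cs.length v) :
    cs.length (u * g) = cs.length u + cs.length g ∧
    cs.length (u * g * v) = cs.length (u * g) + cs.length v ∧
    cs.length (g * v) = cs.length g + cs.length v := by
  subst hw
  have h1 := cs.length_mul_le u g
  have h2 := cs.length_mul_le (u * g) v
  have h3 := cs.length_mul_le g v
  have h4 := cs.length_mul_le u (g * v)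
  rw [← mul_assoc] at h4
  refine ⟨by omega, by omega, by omega⟩

theorem ge_up {m : ℕ} {g : W} {I : Set S} (hI : Sm X.M I) (hg : g ∈ par X.cs I) (h : X.Ge m g) :
    m ≤ X.α g := by
  obtain ⟨u, g1, u', J, hJ, hg1, he, hl, hm⟩ := h
  obtain ⟨l1, l2, -⟩ := len3 X.cs he hl
  obtain ⟨-, hPB⟩ := Pool.Agent.Helper15.AM.k_gpb S W X.M X.cs
  obtain ⟨-, -, -, -, hPB5, -⟩ := hPB I
  have hg' : u * g1 * u' ∈ par X.cs I := he ▸ hg
  obtain ⟨a1, a2⟩ := hPB5 (u * g1) u' l2 hg'
  obtain ⟨b1, b2⟩ := hPB5 u g1 l1 a1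
  obtain ⟨-, -, -, -, -, hap⟩ := Pool.Agent.Helper15.AM.k_ap S W H X.toBase I X.α (X.pg I hI)
  have c1 := (hap u b1 g1 b2 l1).2
  have c2 := (hap (u * g1) a1 u' a2 l2).1
  rw [← he] at c2
  omega

theorem t : Pool.Agent.Helper74.LF.IGE := by
  intro S W H _ _ _ _ X
  have hAP : ∀ I : Set S, Sm X.M I → _ := fun I hI =>
    Pool.Agent.Helper15.AM.k_ap S W H X.toBase I X.α (X.pg I hI)
  refine ⟨?_, ?_, ?_, ?_, ?_, ?_, ?_⟩
  · intro w
    refine ⟨1, 1, w, ∅, sm_empty _, one_mem _, by simp, by simp, Nat.zero_le _⟩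
  · rintro m m' w ⟨u, g, u', I, hI, hg, he, hl, hm⟩ hmm
    exact ⟨u, g, u', I, hI, hg, he, hl, hmm.trans hm⟩
  · classical
    have hb : ∀ I : Set S, ∃ N : ℕ, Sm X.M I → ∀ w ∈ par X.cs I, X.α w ≤ N := by
      intro I
      by_cases hI : Sm X.M I
      · obtain ⟨N, hN⟩ := (hAP I hI).1
        exact ⟨N, fun _ => hN⟩
      · exact ⟨0, fun h => absurd h hI⟩
    choose N hN using hb
    obtain ⟨B, hB⟩ := Finite.exists_le N
    refine ⟨B, ?_⟩
    rintro w ⟨u, g, u', I, hI, hg, he, hl, hm⟩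
    have h1 := hN I hI g hg
    have h2 := hB I
    omega
  · rintro m w ⟨u, g, u', I, hI, hg, he, hl, hm⟩
    refine ⟨u'⁻¹, g⁻¹, u⁻¹, I, hI, inv_mem hg, ?_, ?_, ?_⟩
    · rw [he]; group
    · simp only [CoxeterSystem.length_inv]
      omega
    · rw [(hAP I hI).2.2.2.1 g hg]
      exact hm
  · intro I g m hI hg
    refine ⟨fun h => ge_up X hI hg h, fun h => ⟨1, g, 1, I, hI, hg, by simp, by simp, h⟩⟩
  · rintro m u v hl (⟨u1, g, u2, I, hI, hg, he, hl2, hm⟩ | ⟨u1, g, u2, I, hI, hg, he, hl2, hm⟩)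
    · refine ⟨u1, g, u2 * v, I, hI, hg, by rw [he]; group, ?_, hm⟩
      have h1 : u * v = u1 * g * (u2 * v) := by rw [he]; group
      have h2 := X.cs.length_mul_le (u1 * g) (u2 * v)
      have h3 := X.cs.length_mul_le u1 g
      have h4 := X.cs.length_mul_le u2 v
      rw [← h1] at h2
      omega
    · refine ⟨u * u1, g, u2, I, hI, hg, by rw [he]; group, ?_, hm⟩
      have h1 : u * v = u * u1 * (g * u2) := by rw [he]; group
      have h2 := X.cs.length_mul_le (u * u1) (g * u2)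
      have h3 := X.cs.length_mul_le u u1
      have h4 := X.cs.length_mul_le g u2
      rw [← h1] at h2
      omega
  · rintro m z ⟨u, g, u', I, hI, hg, he, hl, hm⟩
    obtain ⟨-, hpa2, hpa3⟩ := Pool.Agent.Helper15.AM.k_gpa S W X.M X.cs I
    obtain ⟨-, -, -, hpc4, hpc5, -, -⟩ := Pool.Agent.Helper15.AM.k_gpc S W X.M X.cs I
    obtain ⟨x, v, hv, hx, hu⟩ := hpa2 u
    obtain ⟨v', hv', y, hy, hu'⟩ := hpc4 u'
    have hg2 : v * g * v' ∈ par X.cs I := mul_mem (mul_mem hv hg) hv'
    have e1 : z = x * (v * g * v') * y := by rw [he, hu, hu']; group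
    have l1 : X.cs.length u = X.cs.length x + X.cs.length v := by rw [hu]; exact hpa3 x hx v hv
    have l2 : X.cs.length u' = X.cs.length v' + X.cs.length y := by rw [hu']; exact hpc5 y hy v' hv'
    have l3 := X.cs.length_mul_le (x * (v * g * v')) y
    have l4 := X.cs.length_mul_le x (v * g * v')
    have l5 := X.cs.length_mul_le (v * g) v'
    have l6 := X.cs.length_mul_le v g
    rw [← e1] at l3
    have hap := (hAP I hI).2.2.2.2.2
    have c1 := (hap v hv g hg (by omega)).2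
    have c2 := (hap (v * g) (mul_mem hv hg) v' hv' (by omega)).1
    exact ⟨x, v * g * v', y, I, hI, hx, hg2, hy, e1, by omega, by omega⟩

end Pool.Agent.Helper74.LF.C_IGE
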