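import Pool.Agent.Helper74.LF.GoalsG

/-! Packet LL-KD2 (MP_cc6379_al). -/

set_option autoImplicit false

open Pool.Agent.Helper15.RA Pool.Agent.Helper45.AM Pool.Agent.Helper74.LF

noncomputable section

namespace Pool.Agent.Helper74.LF.C_KD2

variable {S W : Type} [Group W] {M : CoxeterMatrix S} (cs : CoxeterSystem M W)

theorem par_sim {P : Set S} {i : S} (hi : i ∈ P) : cs.simple i ∈ par cs P :=
  Subgroup.subset_closure ⟨i, hi, rfl⟩

theorem comm2 {i j : S} (h : M i j = 2) : cs.simple i * cs.simple j = cs.simple j * cs.simple i := by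
  have h1 := cs.simple_mul_simple_pow i j
  rw [h, pow_two] at h1
  have h2 := eq_inv_of_mul_eq_one_left h1
  rwa [mul_inv_rev, cs.inv_simple, cs.inv_simple] at h2

theorem rd_inv {w : W} {i : S} : cs.IsRightDescent w⁻¹ i ↔ cs.IsLeftDescent w i :=
  cs.isRightDescent_inv_iff

theorem ld_inv {w : W} {i : S} : cs.IsLeftDescent w⁻¹ i ↔ cs.IsRightDescent w i :=
  cs.isLeftDescent_inv_iff

/-- (5) -/
theorem c5 {i j : S} {x : W} (h : M i j = 2) (h1 : ¬ cs.IsRightDescent x i) (h2 : cs.IsRightDescent x j) :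
    cs.IsRightDescent (x * cs.simple i) j := by
  rw [cs.not_isRightDescent_iff] at h1
  rw [cs.isRightDescent_iff] at h2
  have e : x * cs.simple i * cs.simple j = x * cs.simple j * cs.simple i := by
    rw [mul_assoc, comm2 cs h, mul_assoc]
  have h3 := cs.length_mul_le (x * cs.simple j) (cs.simple i)
  rw [cs.length_simple] at h3
  unfold CoxeterSystem.IsRightDescent
  rw [e, h1]
  omega

/-- (6) -/
theorem c6 {i j : S} {x : W} (h : M i j = 2) (h1 : ¬ cs.IsLeftDescent x i) (h2 : cs.IsLeftDescent x j) :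
    cs.IsLeftDescent (cs.simple i * x) j := by
  rw [← rd_inv] at h1 h2 ⊢
  rw [mul_inv_rev, cs.inv_simple]
  exact c5 cs h h1 h2

/-- (10) -/
theorem c10 {u v : W} {i : S} (h : cs.length (u * v) = cs.length u + cs.length v) :
    (cs.IsRightDescent v i → cs.IsRightDescent (u * v) i) ∧ (cs.IsLeftDescent u i → cs.IsLeftDescent (u * v) i) := by
  constructor
  · intro hd
    rw [cs.isRightDescent_iff] at hd
    have h3 := cs.length_mul_le u (v * cs.simple i)
    unfold CoxeterSystem.IsRightDescent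
    rw [mul_assoc, h]
    omega
  · intro hd
    rw [cs.isLeftDescent_iff] at hd
    have h3 := cs.length_mul_le (cs.simple i * u) v
    unfold CoxeterSystem.IsLeftDescent
    rw [← mul_assoc, h]
    omega

/-- (8) -/
theorem c8 {P : Set S} {y p : W} (hy : XL cs P (y * p)) (h : cs.length (y * p) = cs.length y + cs.length p) :
    XL cs P y := by
  intro i hi
  have h1 := hy i hi
  by_contra hc
  have hd : cs.IsLeftDescent y i := by
    by_contra hn
    exact hc (cs.not_isLeftDescent_iff.1 hn)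
  have := (c10 cs h).2 hd
  exact cs.not_isLeftDescent_iff.2 h1 this

/-- (9) -/
theorem c9 {P : Set S} {p x : W} (hy : XR cs P (p * x)) (h : cs.length (p * x) = cs.length p + cs.length x) :
    XR cs P x := by
  intro i hi
  have h1 := hy i hi
  by_contra hc
  have hd : cs.IsRightDescent x i := by
    by_contra hn
    exact hc (cs.not_isRightDescent_iff.1 hn)
  have := (c10 cs h).1 hd
  exact cs.not_isRightDescent_iff.2 h1 this

/-- (3) -/
theorem c3 {P : Set S} (hA : ∀ x, XR cs P x → ∀ g ∈ par cs P, cs.length (x * g) = cs.length x + cs.length g)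
    {u z : W} {i : S} (hu : XR cs P u) (hz : z ∈ par cs P) (hi : i ∈ P) :
    cs.IsRightDescent (u * z) i ↔ cs.IsRightDescent z i := by
  have h1 := hA u hu z hz
  have h2 := hA u hu (z * cs.simple i) (mul_mem hz (par_sim cs hi))
  unfold CoxeterSystem.IsRightDescent
  rw [mul_assoc, h1, h2]
  omega

/-- (4) -/
theorem c4 {P : Set S} (hA : ∀ y, XL cs P y → ∀ g ∈ par cs P, cs.length (g * y) = cs.length g + cs.length y)
    {u z : W} {i : S} (hu : XL cs P u) (hz : z ∈ par cs P) (hi : i ∈ P) :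
    cs.IsLeftDescent (z * u) i ↔ cs.IsLeftDescent z i := by
  have h1 := hA u hu z hz
  have h2 := hA u hu (cs.simple i * z) (mul_mem (par_sim cs hi) hz)
  unfold CoxeterSystem.IsLeftDescent
  rw [← mul_assoc, h1, h2]
  omega

/-- (7) Deodhar -/
theorem c7 (hXE : ∀ (i j : S) (w : W), cs.length w < cs.length (w * cs.simple j) →
      cs.length (cs.simple i * w * cs.simple j) < cs.length (cs.simple i * w) →
      cs.simple i * w = w * cs.simple j)
    {P : Set S} (hA : ∀ y, XL cs P y → ∀ g ∈ par cs P, cs.length (g * y) = cs.length g + cs.length y)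
    {g y : W} {t : S} (hg : g ∈ par cs P) (hy : XL cs P y) (hd : cs.IsRightDescent (g * y) t)
    (hn : ¬ cs.IsRightDescent y t) :
    ∃ e ∈ P, cs.IsRightDescent g e ∧ cs.simple e * y = y * cs.simple t := by
  have h1 := hA y hy g hg
  rw [cs.not_isRightDescent_iff] at hn
  have hd' := hd
  unfold CoxeterSystem.IsRightDescent at hd'
  have hnx : ¬ XL cs P (y * cs.simple t) := by
    intro hx
    have h2 := hA _ hx g hg
    rw [← mul_assoc] at h2
    omega
  unfold XL at hnx
  push Not at hnx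
  obtain ⟨e, he, hne⟩ := hnx
  have h3 : cs.IsLeftDescent (y * cs.simple t) e := by
    by_contra hc
    exact hne (cs.not_isLeftDescent_iff.1 hc)
  rw [cs.isLeftDescent_iff, ← mul_assoc] at h3
  have h4 := hy e he
  have h5 := hXE e t y (by omega) (by omega)
  refine ⟨e, he, ?_, h5⟩
  have h6 := hA y hy (g * cs.simple e) (mul_mem hg (par_sim cs he))
  unfold CoxeterSystem.IsRightDescent
  rw [mul_assoc, h5, ← mul_assoc] at h6
  omega

/-- the next right descent in a dihedral group -/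
theorem nxt {i j p q : S} (hpq : (p = i ∧ q = j) ∨ (p = j ∧ q = i))
    (h3 : ∀ z ∈ par cs {i, j}, z ≠ 1 → cs.IsRightDescent z i ∨ cs.IsRightDescent z j)
    {z : W} (hz : z ∈ par cs {i, j}) (hd : cs.IsRightDescent z p) (hl : 2 ≤ cs.length z) :
    z * cs.simple p ∈ par cs {i, j} ∧ cs.IsRightDescent (z * cs.simple p) q ∧
      cs.length (z * cs.simple p) + 1 = cs.length z := by
  have hp : p ∈ ({i, j} : Set S) := by
    rcases hpq with ⟨h, -⟩ | ⟨h, -⟩ <;> simp [h]
  have hm : z * cs.simple p ∈ par cs {i, j} := mul_mem hz (par_sim cs hp)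
  have hl1 := cs.isRightDescent_iff.1 hd
  have hn : ¬ cs.IsRightDescent (z * cs.simple p) p :=
    cs.isRightDescent_iff_not_isRightDescent_mul.1 hd
  have hne : z * cs.simple p ≠ 1 := by
    intro h
    rw [h, cs.length_one] at hl1
    omega
  refine ⟨hm, ?_, hl1⟩
  rcases h3 _ hm hne with h | h
  · rcases hpq with ⟨a, b⟩ | ⟨a, b⟩
    · rw [← a] at h
      exact absurd h hn
    · rw [b]
      exact h
  · rcases hpq with ⟨a, b⟩ | ⟨a, b⟩
    · rw [b]
      exact h
    · rw [← a] at h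
      exact absurd h hn

/-- (1) -/
theorem c1 {i j : S} (hij : i ≠ j)
    (hD : ∀ w, ∃ x, ∃ g ∈ par cs {i, j}, XR cs {i, j} x ∧ w = x * g)
    (hA : ∀ x, XR cs {i, j} x → ∀ g ∈ par cs {i, j}, cs.length (x * g) = cs.length x + cs.length g)
    (k1 : w0 cs i j ∈ par cs {i, j}) (k2 : cs.length (w0 cs i j) = M i j)
    (k3 : ∀ z ∈ par cs {i, j}, z ≠ w0 cs i j → ¬ (cs.IsRightDescent z i ∧ cs.IsRightDescent z j))
    (k4 : ∀ z ∈ par cs {i, j}, z ≠ 1 → cs.IsRightDescent z i ∨ cs.IsRightDescent z j)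
    (k5 : cs.IsRightDescent (w0 cs i j) i) (hm0 : M i j ≠ 0)
    {w : W} (hi : cs.IsRightDescent w i) (hj : cs.IsRightDescent w j) :
    (∃ u, XR cs {i, j} u ∧ w = u * w0 cs i j ∧ cs.length w = cs.length u + M i j) ∧
    cs.IsRightDescent (w * cs.simple i) j ∧
    (6 ≤ M i j → cs.IsRightDescent (w * cs.simple i * cs.simple j) i ∧
      cs.IsRightDescent (w * cs.simple i * cs.simple j * cs.simple i) j ∧
      cs.IsRightDescent (w * cs.simple i * cs.simple j * cs.simple i * cs.simple j) i) := by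
  have mi : i ∈ ({i, j} : Set S) := by simp
  have mj : j ∈ ({i, j} : Set S) := by simp
  obtain ⟨u, z, hz, hu, rfl⟩ := hD w
  have hzi := (c3 cs hA hu hz mi).1 hi
  have hzj := (c3 cs hA hu hz mj).1 hj
  have hzw : z = w0 cs i j := by
    by_contra hc
    exact k3 z hz hc ⟨hzi, hzj⟩
  subst hzw
  have hm1 : M i j ≠ 1 := M.off_diagonal i j hij
  obtain ⟨a1, a2, a3⟩ := nxt cs (i := i) (j := j) (p := i) (q := j) (Or.inl ⟨rfl, rfl⟩) k4 k1 k5 (by omega)
  refine ⟨⟨u, hu, rfl, by rw [hA u hu _ hz, k2]⟩, ?_, ?_⟩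
  · rw [mul_assoc]
    exact (c3 cs hA hu a1 mj).2 a2
  · intro h7
    obtain ⟨b1, b2, b3⟩ := nxt cs (i := i) (j := j) (p := j) (q := i) (Or.inr ⟨rfl, rfl⟩) k4 a1 a2 (by omega)
    obtain ⟨c1, c2, c3'⟩ := nxt cs (i := i) (j := j) (p := i) (q := j) (Or.inl ⟨rfl, rfl⟩) k4 b1 b2 (by omega)
    obtain ⟨d1, d2, d3⟩ := nxt cs (i := i) (j := j) (p := j) (q := i) (Or.inr ⟨rfl, rfl⟩) k4 c1 c2 (by omega)
    refine ⟨?_, ?_, ?_⟩
    · have := (c3 cs hA hu b1 mi).2 b2
      simpa only [mul_assoc] using this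
    · have := (c3 cs hA hu c1 mj).2 c2
      simpa only [mul_assoc] using this
    · have := (c3 cs hA hu d1 mi).2 d2
      simpa only [mul_assoc] using this

theorem t (k1 : Pool.Agent.Helper74.LF.KD1) : Pool.Agent.Helper74.LF.KD2 := by
  intro S W _ M cs
  have hA : ∀ (P : Set S) (x : W), XR cs P x → ∀ g ∈ par cs P,
      cs.length (x * g) = cs.length x + cs.length g :=
    fun P => (Pool.Agent.Helper15.AM.k_gpa S W M cs P).2.2
  have hD : ∀ (P : Set S) (w : W), ∃ x, ∃ g ∈ par cs P, XR cs P x ∧ w = x * g :=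
    fun P => (Pool.Agent.Helper15.AM.k_gpa S W M cs P).2.1
  have hI : ∀ (P : Set S) (y : W), XL cs P y ↔ XR cs P y⁻¹ :=
    fun P => (Pool.Agent.Helper15.AM.k_gpc S W M cs P).2.2.1
  have hAL : ∀ (P : Set S) (y : W), XL cs P y → ∀ g ∈ par cs P,
      cs.length (g * y) = cs.length g + cs.length y :=
    fun P => (Pool.Agent.Helper15.AM.k_gpc S W M cs P).2.2.2.2.1
  have hXE : ∀ (i j : S) (w : W), cs.length w < cs.length (w * cs.simple j) →
      cs.length (cs.simple i * w * cs.simple j) < cs.length (cs.simple i * w) →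
      cs.simple i * w = w * cs.simple j :=
    fun i j w => g_xe S W M cs i j w
  have C1 : ∀ i j, i ≠ j → M i j ≠ 0 → ∀ w, cs.IsRightDescent w i → cs.IsRightDescent w j →
      (∃ u, XR cs {i, j} u ∧ w = u * w0 cs i j ∧ cs.length w = cs.length u + M i j) ∧
      cs.IsRightDescent (w * cs.simple i) j ∧
      (6 ≤ M i j → cs.IsRightDescent (w * cs.simple i * cs.simple j) i ∧
        cs.IsRightDescent (w * cs.simple i * cs.simple j * cs.simple i) j ∧
        cs.IsRightDescent (w * cs.simple i * cs.simple j * cs.simple i * cs.simple j) i) := by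
    intro i j hij hm w hi hj
    obtain ⟨⟨a1, -, -, a4, -⟩, -, a6, ⟨a7, -⟩, -⟩ := k1 S W M cs i j hij hm
    exact c1 cs hij (hD _) (hA _) a1 a4 (fun z hz hne => ((a6 z hz).1 hne).1)
      (fun z hz hne => ((a6 z hz).2 hne).1) a7 hm hi hj
  refine ⟨C1, ?_, fun P u z i hu hz hi => c3 cs (hA P) hu hz hi,
    fun P u z i hu hz hi => c4 cs (hAL P) hu hz hi, fun i j x h h1 h2 => c5 cs h h1 h2,
    fun i j x h h1 h2 => c6 cs h h1 h2,
    fun P g y t hg hy hd hn => c7 cs hXE (hAL P) hg hy hd hn,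
    fun P y p hy h => c8 cs hy h, fun P p x hy h => c9 cs hy h, fun u v i h => c10 cs h,
    fun i j h => comm2 cs h⟩
  intro i j hij hm w hi hj
  obtain ⟨⟨-, -, a3, -, -⟩, -⟩ := k1 S W M cs i j hij hm
  obtain ⟨⟨u, hu, e, hl⟩, r1, r7⟩ := C1 i j hij hm w⁻¹ ((rd_inv cs).2 hi) ((rd_inv cs).2 hj)
  refine ⟨⟨u⁻¹, (hI _ _).2 (by rwa [inv_inv]), ?_, ?_⟩, ?_, ?_⟩
  · rw [← inv_inv w, e, mul_inv_rev, a3]
  · rw [cs.length_inv] at hl ⊢
    omega
  · rw [← rd_inv, mul_inv_rev, cs.inv_simple]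
    exact r1
  · intro h7
    obtain ⟨s1, s2, s3⟩ := r7 h7
    refine ⟨?_, ?_, ?_⟩
    · rw [← rd_inv, mul_inv_rev, mul_inv_rev, cs.inv_simple, cs.inv_simple]
      exact s1
    · rw [← rd_inv, mul_inv_rev, mul_inv_rev, mul_inv_rev, cs.inv_simple, cs.inv_simple]
      exact s2
    · rw [← rd_inv, mul_inv_rev, mul_inv_rev, mul_inv_rev, mul_inv_rev, cs.inv_simple, cs.inv_simple]
      exact s3

end Pool.Agent.Helper74.LF.C_KD2
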