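import Pool.Agent.Helper74.LF.GoalsG

/-!
# Project LL (MP_cc6379_al), packet LL-NEWD
-/

set_option autoImplicit false

open Pool.Agent.Helper15.RA Pool.Agent.Helper45.AM

noncomputable section

namespace Pool.Agent.Helper74.LF.C_NEWD

open Pool.Agent.Helper74.LF

section

variable {S W : Type} [Group W] {M : CoxeterMatrix S} (cs : CoxeterSystem M W)

theorem simple_mem {P : Set S} {i : S} (h : i ∈ P) : cs.simple i ∈ par cs P :=
  Subgroup.subset_closure ⟨i, h, rfl⟩

/-- the case that `b` is the right descent of `g` -/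
theorem aux (hKD1 : KD1) (hKD2 : KD2) (hK1 : K1) (hL : Lg M) (a b : S) (x g : W) (r : S) (hab : a ≠ b)
    (hx : XR cs {a, b} x) (hg : g ∈ par cs {a, b}) (hl : 2 ≤ cs.length g)
    (hr : cs.IsRightDescent (x * g) r) (hra : r ≠ a) (hrb : r ≠ b) (hb : cs.IsRightDescent g b) :
    g = cs.simple a * cs.simple b ∧ M b r = 2 ∧ cs.IsRightDescent (x * cs.simple a) r := by
  obtain ⟨-, c2, c3, -, -, c6, -, c8, -⟩ := hKD1 S W M cs a b hab (hL.fin a b)
  obtain ⟨d1, -, d3, -⟩ := hKD2 S W M cs
  obtain ⟨-, -, T3, -, CL, -⟩ := hK1 S W M cs hL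
  have ma : a ∈ ({a, b} : Set S) := Or.inl rfl
  have mb : b ∈ ({a, b} : Set S) := Or.inr rfl
  have hxb : cs.IsRightDescent (x * g) b := (d3 {a, b} x g b hx hg mb).2 hb
  by_cases hna : cs.IsRightDescent g a
  · have hxa := (d3 {a, b} x g a hx hg ma).2 hna
    have hMab : M a b = 2 := T3 (x * g) a b r hab hra.symm hrb.symm hxa hxb hr
    have hMbr : M b r = 2 := T3 (x * g) b r a hrb.symm hab.symm hra hxb hr hxa
    have hgw : g = w0 cs a b := by
      by_contra h
      exact ((c3 g hg).1 h).1 ⟨hna, hb⟩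
    have hgab : g = cs.simple a * cs.simple b := by
      rw [hgw]
      exact (c8 hMab).1
    refine ⟨hgab, hMbr, ?_⟩
    have hxr1 : cs.IsRightDescent (x * g * cs.simple b) r :=
      (d1 b r hrb.symm (hL.fin b r) (x * g) hxb hr).2.1
    have h8 : x * g * cs.simple b = x * cs.simple a := by
      rw [hgab, ← mul_assoc, mul_assoc (x * cs.simple a), cs.simple_mul_simple_self, mul_one]
    rw [← h8]
    exact hxr1
  -- `g₁ = g s_b`
  have hl1 : cs.length (g * cs.simple b) + 1 = cs.length g := cs.isRightDescent_iff.1 hb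
  have hg1 : g * cs.simple b ∈ par cs {a, b} := mul_mem hg (simple_mem cs mb)
  have hne1 : g * cs.simple b ≠ 1 := by
    intro h
    rw [h, cs.length_one] at hl1
    omega
  have hnb1 : ¬ cs.IsRightDescent (g * cs.simple b) b := by
    intro h
    have h2 := cs.isRightDescent_iff.1 h
    rw [mul_assoc, cs.simple_mul_simple_self, mul_one] at h2
    omega
  have ha1 : cs.IsRightDescent (g * cs.simple b) a := by
    rcases ((c3 _ hg1).2 hne1).1 with h | h
    · exact h
    · exact absurd h hnb1
  have hxa1 : cs.IsRightDescent (x * g * cs.simple b) a := by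
    rw [mul_assoc]
    exact (d3 {a, b} x _ a hx hg1 ma).2 ha1
  have hMb : M b r = 2 := CL (x * g) b a r hrb hra hxb hxa1 hr
  have hxr1 : cs.IsRightDescent (x * g * cs.simple b) r :=
    (d1 b r hrb.symm (hL.fin b r) (x * g) hxb hr).2.1
  have hlen : cs.length g = 2 := by
    by_contra h3
    have h4 : 3 ≤ cs.length g := by omega
    have hl2 : cs.length (g * cs.simple b * cs.simple a) + 1 = cs.length (g * cs.simple b) :=
      cs.isRightDescent_iff.1 ha1
    have hg2 : g * cs.simple b * cs.simple a ∈ par cs {a, b} := mul_mem hg1 (simple_mem cs ma)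
    have hne2 : g * cs.simple b * cs.simple a ≠ 1 := by
      intro h
      rw [h, cs.length_one] at hl2
      omega
    have hna2 : ¬ cs.IsRightDescent (g * cs.simple b * cs.simple a) a := by
      intro h
      have h2 := cs.isRightDescent_iff.1 h
      rw [mul_assoc (g * cs.simple b), cs.simple_mul_simple_self, mul_one] at h2
      omega
    have hb2 : cs.IsRightDescent (g * cs.simple b * cs.simple a) b := by
      rcases ((c3 _ hg2).2 hne2).1 with h | h
      · exact absurd h hna2
      · exact h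
    have hxb2 : cs.IsRightDescent (x * g * cs.simple b * cs.simple a) b := by
      have h5 : x * g * cs.simple b * cs.simple a = x * (g * cs.simple b * cs.simple a) := by
        simp only [mul_assoc]
      rw [h5]
      exact (d3 {a, b} x _ b hx hg2 mb).2 hb2
    have hMa : M a r = 2 := CL (x * g * cs.simple b) a b r hra hrb hxa1 hxb2 hxr1
    have h6 : M r a = 2 := by rw [M.symmetric r a]; exact hMa
    have h7 : M r b = 2 := by rw [M.symmetric r b]; exact hMb
    have h8 := hL.tr r a b h6 h7 hab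
    have h9 := (c2 g hg).1
    omega
  have hgab : g = cs.simple a * cs.simple b := by
    rcases (c6 g hg).2.1 hlen with h | h
    · exact h
    · exfalso
      apply hna
      rw [cs.isRightDescent_iff, hlen, h, mul_assoc, cs.simple_mul_simple_self, mul_one,
        cs.length_simple]
  refine ⟨hgab, hMb, ?_⟩
  have h8 : x * g * cs.simple b = x * cs.simple a := by
    rw [hgab, ← mul_assoc, mul_assoc (x * cs.simple a), cs.simple_mul_simple_self, mul_one]
  rw [← h8]
  exact hxr1

end

theorem t (hKD1 : KD1) (hKD2 : KD2) (hK1 : K1) : NEWD := by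
  intro S W _ M cs hL i j x g r hij hx hF hr hnr
  obtain ⟨-, -, c3, -, c5, -⟩ := hKD1 S W M cs i j hij (hL.fin i j)
  obtain ⟨-, -, d3, -⟩ := hKD2 S W M cs
  obtain ⟨hg, hl⟩ := (c5 g).1 hF
  have mi : i ∈ ({i, j} : Set S) := Or.inl rfl
  have mj : j ∈ ({i, j} : Set S) := Or.inr rfl
  have hri : r ≠ i := by
    rintro rfl
    exact hnr ((d3 _ x g _ hx hg mi).1 hr)
  have hrj : r ≠ j := by
    rintro rfl
    exact hnr ((d3 _ x g _ hx hg mj).1 hr)
  have hne : g ≠ 1 := by
    rintro rfl
    rw [cs.length_one] at hl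
    omega
  rcases ((c3 g hg).2 hne).1 with h | h
  · rw [Set.pair_comm] at hx hg
    obtain ⟨h1, h2, h3⟩ := aux cs hKD1 hKD2 hK1 hL j i x g r hij.symm hx hg hl hr hrj hri h
    exact ⟨j, i, Or.inr ⟨rfl, rfl⟩, h1, h2, hrj, hri, h3⟩
  · obtain ⟨h1, h2, h3⟩ := aux cs hKD1 hKD2 hK1 hL i j x g r hij hx hg hl hr hri hrj h
    exact ⟨i, j, Or.inl ⟨rfl, rfl⟩, h1, h2, hri, hrj, h3⟩

end Pool.Agent.Helper74.LF.C_NEWD
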