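import Pool.Agent.Helper74.LF.GoalsR

/-!
# Project LL (MP_cc6379_al), packet RA0 (helper45)
-/

set_option autoImplicit false

open Pool.Agent.Helper15.RA Pool.Agent.Helper45.AM Pool.Agent.Helper74.LF

noncomputable section

namespace Pool.Agent.Helper74.LF.C_RA0

section basic

variable {S W : Type} [Group W] {M : CoxeterMatrix S} (cs : CoxeterSystem M W)

theorem simple_mem {P : Set S} {i : S} (hi : i ∈ P) : cs.simple i ∈ par cs P :=
  Subgroup.subset_closure (Set.mem_image_of_mem _ hi)

variable {cs}

theorem rd_len {w : W} {i : S} (h : cs.IsRightDescent w i) : cs.length (w * cs.simple i) + 1 = cs.length w :=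
  cs.isRightDescent_iff.1 h

theorem nrd_len {w : W} {i : S} (h : ¬ cs.IsRightDescent w i) :
    cs.length (w * cs.simple i) = cs.length w + 1 :=
  cs.not_isRightDescent_iff.1 h

theorem ld_len {w : W} {i : S} (h : cs.IsLeftDescent w i) : cs.length (cs.simple i * w) + 1 = cs.length w :=
  cs.isLeftDescent_iff.1 h

theorem nld_len {w : W} {i : S} (h : ¬ cs.IsLeftDescent w i) :
    cs.length (cs.simple i * w) = cs.length w + 1 :=
  cs.not_isLeftDescent_iff.1 h

theorem rd_mul {w : W} {i : S} (h : cs.IsRightDescent w i) : ¬ cs.IsRightDescent (w * cs.simple i) i := by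
  intro h1
  have h2 := rd_len h
  have h3 := rd_len h1
  rw [cs.simple_mul_simple_cancel_right] at h3
  omega

theorem nrd_mul {w : W} {i : S} (h : ¬ cs.IsRightDescent w i) : cs.IsRightDescent (w * cs.simple i) i := by
  rw [cs.isRightDescent_iff, cs.simple_mul_simple_cancel_right, nrd_len h]

theorem ld_mul {w : W} {i : S} (h : cs.IsLeftDescent w i) : ¬ cs.IsLeftDescent (cs.simple i * w) i := by
  intro h1
  have h2 := ld_len h
  have h3 := ld_len h1
  rw [cs.simple_mul_simple_cancel_left] at h3
  omega

theorem xr_pair {i j : S} {x : W} (h1 : ¬ cs.IsRightDescent x i) (h2 : ¬ cs.IsRightDescent x j) :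
    XR cs {i, j} x := by
  rintro k (rfl | hk)
  · exact nrd_len h1
  · rw [Set.mem_singleton_iff] at hk
    subst hk
    exact nrd_len h2

theorem xl_pair {i j : S} {x : W} (h1 : ¬ cs.IsLeftDescent x i) (h2 : ¬ cs.IsLeftDescent x j) :
    XL cs {i, j} x := by
  rintro k (rfl | hk)
  · exact nld_len h1
  · rw [Set.mem_singleton_iff] at hk
    subst hk
    exact nld_len h2

/-- a product of two different letters of `{a, b}` -/
theorem two_letters (hKD1 : KD1) {a b p q : S} (hab : a ≠ b) (hpq : p ≠ q) (hM : ∀ i j, M i j ≠ 0)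
    (h : cs.simple a * cs.simple b = cs.simple p * cs.simple q) :
    (p = a ∧ q = b) ∨ (p = b ∧ q = a ∧ M a b = 2) := by
  have hB := (Pool.Agent.Helper15.AM.k_gpb S W M cs).2 {a, b}
  obtain ⟨hB1, -, -, -, hB5, -⟩ := hB
  have h2 : cs.length (cs.simple p * cs.simple q) = 2 := (hKD1 S W M cs p q hpq (hM p q)).2.2.2.2.2.2.2.2.1
  have hmem : cs.simple p * cs.simple q ∈ par cs {a, b} := by
    rw [← h]
    exact (par cs {a, b}).mul_mem (simple_mem cs (by simp)) (simple_mem cs (by simp))
  have h3 := hB5 (cs.simple p) (cs.simple q) (by rw [h2, cs.length_simple, cs.length_simple]) hmem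
  have hp := hB1 p h3.1
  have hq := hB1 q h3.2
  rw [Set.mem_insert_iff, Set.mem_singleton_iff] at hp hq
  rcases hp with hp | hp <;> rcases hq with hq | hq
  · exact absurd (hp.trans hq.symm) hpq
  · exact Or.inl ⟨hp, hq⟩
  · refine Or.inr ⟨hp, hq, ?_⟩
    by_contra hne
    have h4 := (hKD1 S W M cs a b hab (hM a b)).2.2.2.2.2.2.1 hne
    rw [hp, hq] at h
    exact h4 h
  · exact absurd (hp.trans hq.symm) hpq

end basic

theorem t (hKD1 : KD1) (hKD2 : KD2) (hK1 : K1) (hGEO : GEO) : RA0 := by
  intro S W _ M cs hL a b c x y hab hac hbc hMac hMbc hx hy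
  obtain ⟨-, -, t3R, -, cl1R, -, szR, szL, -, -⟩ := hK1 S W M cs hL
  obtain ⟨dR, -, pR, pL, -, -, -, -, -, -, -⟩ := hKD2 S W M cs
  have geo := hGEO S W M cs hL
  have hPA := (Pool.Agent.Helper15.AM.k_gpa S W M cs {a, c}).2.2
  have hPC := (Pool.Agent.Helper15.AM.k_gpc S W M cs {b, c}).2.2.2.2.1
  have h7ac := hL.big a c hac hMac
  have h7bc := hL.big b c hbc hMbc
  obtain ⟨⟨wac_mem, -, -, wac_len, -⟩, -, wac3, ⟨wac_Ra, wac_Rc, wac_La, wac_Lc⟩, -⟩ :=
    hKD1 S W M cs a c hac (hL.fin a c)
  obtain ⟨⟨wbc_mem, -, -, wbc_len, -⟩, -, wbc3, ⟨wbc_Rb, wbc_Rc, wbc_Lb, wbc_Lc⟩, wbc_full, -⟩ :=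
    hKD1 S W M cs b c hbc (hL.fin b c)
  have sa_ac : cs.simple a ∈ par cs {a, c} := simple_mem cs (by simp)
  have sc_ac : cs.simple c ∈ par cs {a, c} := simple_mem cs (by simp)
  have sb_bc : cs.simple b ∈ par cs {b, c} := simple_mem cs (by simp)
  have sc_bc : cs.simple c ∈ par cs {b, c} := simple_mem cs (by simp)
  -- the element h
  obtain ⟨h, hh⟩ : ∃ h, h = w0 cs a c * cs.simple c := ⟨_, rfl⟩
  have h_mem : h ∈ par cs {a, c} := hh ▸ (par cs {a, c}).mul_mem wac_mem sc_ac
  have h_len : cs.length h + 1 = M a c := by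
    rw [hh, rd_len wac_Rc, wac_len]
  have h_nc : ¬ cs.IsRightDescent h c := by
    rw [hh]
    exact rd_mul wac_Rc
  have h_ne1 : h ≠ 1 := by
    intro h1
    rw [h1, cs.length_one] at h_len
    omega
  have h_Ra : cs.IsRightDescent h a := ((wac3 h h_mem).2 h_ne1).1.resolve_right h_nc
  -- the element h a
  have ha_mem : h * cs.simple a ∈ par cs {a, c} := (par cs {a, c}).mul_mem h_mem sa_ac
  have ha_len : cs.length (h * cs.simple a) + 2 = M a c := by
    have := rd_len h_Ra
    omega
  have ha_na : ¬ cs.IsRightDescent (h * cs.simple a) a := rd_mul h_Ra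
  have ha_ne1 : h * cs.simple a ≠ 1 := by
    intro h1
    rw [h1, cs.length_one] at ha_len
    omega
  have ha_Rc : cs.IsRightDescent (h * cs.simple a) c :=
    ((wac3 _ ha_mem).2 ha_ne1).1.resolve_left ha_na
  -- the element k
  obtain ⟨k, hk⟩ : ∃ k, k = cs.simple c * w0 cs b c := ⟨_, rfl⟩
  have k_mem : k ∈ par cs {b, c} := hk ▸ (par cs {b, c}).mul_mem sc_bc wbc_mem
  have k_len : cs.length k + 1 = M b c := by
    rw [hk, ld_len wbc_Lc, wbc_len]
  have k_nc : ¬ cs.IsLeftDescent k c := by
    rw [hk]
    exact ld_mul wbc_Lc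
  have k_ne1 : k ≠ 1 := by
    intro h1
    rw [h1, cs.length_one] at k_len
    omega
  have k_Lb : cs.IsLeftDescent k b := ((wbc3 k k_mem).2 k_ne1).2.resolve_right k_nc
  have bk_mem : cs.simple b * k ∈ par cs {b, c} := (par cs {b, c}).mul_mem sb_bc k_mem
  have bk_len : cs.length (cs.simple b * k) + 2 = M b c := by
    have := ld_len k_Lb
    omega
  have bk_nb : ¬ cs.IsLeftDescent (cs.simple b * k) b := ld_mul k_Lb
  have hlen_xh : cs.length (x * h) = cs.length x + cs.length h := hPA x hx h h_mem
  have xh_nc : ¬ cs.IsRightDescent (x * h) c := fun h1 =>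
    h_nc ((pR {a, c} x h c hx h_mem (by simp)).1 h1)
  have szx : ∀ z ∈ par cs {a, c}, 3 ≤ cs.length z → ∀ r, r ≠ a → r ≠ c → ¬ cs.IsRightDescent (x * z) r := by
    intro z hz h3 r hra hrc h1
    have := szR a r c x z hac hra hrc hx hz h1
    omega
  have szy : ∀ z ∈ par cs {b, c}, 3 ≤ cs.length z → ∀ r, r ≠ b → r ≠ c → ¬ cs.IsLeftDescent (z * y) r := by
    intro z hz h3 r hra hrc h1
    have := szL b r c y z hbc hra hrc hy hz h1
    omega
  constructor
  · -- first clause
    obtain ⟨X, hX⟩ : ∃ X, X = x * (h * cs.simple a) := ⟨_, rfl⟩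
    obtain ⟨Y, hY⟩ : ∃ Y, Y = (cs.simple b * k) * y := ⟨_, rfl⟩
    have hXlen : cs.length X = cs.length x + cs.length (h * cs.simple a) := by
      rw [hX]
      exact hPA x hx _ ha_mem
    have hYlen : cs.length Y = cs.length (cs.simple b * k) + cs.length y := by
      rw [hY]
      exact hPC y hy _ bk_mem
    have X_na : ¬ cs.IsRightDescent X a := by
      rw [hX]
      exact fun h1 => ha_na ((pR {a, c} x _ a hx ha_mem (by simp)).1 h1)
    have X_nb : ¬ cs.IsRightDescent X b := by
      rw [hX]
      exact szx _ ha_mem (by omega) b hab.symm hbc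
    have X_Rc : cs.IsRightDescent X c := by
      rw [hX]
      exact (pR {a, c} x _ c hx ha_mem (by simp)).2 ha_Rc
    have Y_nb : ¬ cs.IsLeftDescent Y b := by
      rw [hY]
      exact fun h1 => bk_nb ((pL {b, c} y _ b hy bk_mem (by simp)).1 h1)
    have Y_na : ¬ cs.IsLeftDescent Y a := by
      rw [hY]
      exact szy _ bk_mem (by omega) a hab hac
    have XRX : XR cs {a, b} X := xr_pair X_na X_nb
    have XLY : XL cs {a, b} Y := xl_pair Y_na Y_nb
    have hab2 : cs.length (cs.simple a * cs.simple b) = 2 :=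
      (hKD1 S W M cs a b hab (hL.fin a b)).2.2.2.2.2.2.2.2.1
    have ab_mem : cs.simple a * cs.simple b ∈ par cs {a, b} :=
      (par cs {a, b}).mul_mem (simple_mem cs (by simp)) (simple_mem cs (by simp))
    have hfull : Full cs a b (cs.simple a * cs.simple b) :=
      ((hKD1 S W M cs a b hab (hL.fin a b)).2.2.2.2.1 _).2 ⟨ab_mem, by omega⟩
    have hXa : X * cs.simple a = x * h := by
      rw [hX, mul_assoc, cs.simple_mul_simple_cancel_right]
    have heq : x * h * k * y = X * (cs.simple a * cs.simple b) * Y := by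
      rw [← mul_assoc X, hXa, hY]
      rw [mul_assoc (x * h) (cs.simple b), mul_assoc (cs.simple b) k y,
        cs.simple_mul_simple_cancel_left, ← mul_assoc (x * h) k y]
    have key : cs.length (X * (cs.simple a * cs.simple b) * Y) =
        cs.length X + cs.length (cs.simple a * cs.simple b) + cs.length Y := by
      by_contra hne
      rcases (geo a b X (cs.simple a * cs.simple b) Y hab XRX hfull XLY).1 hne with hT | hT | hT | hT
      · -- type A
        obtain ⟨p, q, r, hpq, hpr, hqr, hg, h1, h2⟩ := hT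
        rcases two_letters hKD1 hab hpq hL.fin hg with ⟨rfl, rfl⟩ | ⟨rfl, rfl, hM2⟩
        · rw [hXa] at h1
          by_cases hrc : r = c
          · subst hrc
            exact xh_nc h1
          · exact szx h h_mem (by omega) r hpr.symm hrc h1
        · -- now p = b, q = a
          have hRb : cs.IsRightDescent (X * cs.simple p) p := nrd_mul X_nb
          have hRc : cs.IsRightDescent (X * cs.simple p * cs.simple p) c := by
            rw [cs.simple_mul_simple_cancel_right]
            exact X_Rc
          by_cases hrc : r = c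
          · subst hrc
            have h3 := ((dR p r hbc (hL.fin p r) (X * cs.simple p) hRb h1).2.2 h7bc).1
            rw [cs.simple_mul_simple_cancel_right] at h3
            have h4 := rd_len ha_Rc
            rw [hX, mul_assoc x] at h3
            exact szx (h * cs.simple q * cs.simple r) ((par cs {q, r}).mul_mem ha_mem sc_ac) (by omega) p hpq hbc h3
          · have h5 := (dR p r hpr (hL.fin p r) (X * cs.simple p) hRb h1).2.1
            rw [cs.simple_mul_simple_cancel_right, hX] at h5
            exact szx _ ha_mem (by omega) r hqr.symm hrc h5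
      · -- type B
        obtain ⟨p, q, r, hpr, hqr, hMpq, hg, h1, h2, h3, h4⟩ := hT
        rcases two_letters hKD1 hab hpr hL.fin hg with ⟨rfl, rfl⟩ | ⟨rfl, rfl, hM2⟩
        · have hqa : q ≠ p := by
            rintro rfl
            rw [M.diagonal] at hMpq
            omega
          have hqc : q ≠ c := by
            rintro rfl
            exact hMac hMpq
          rw [hX] at h1
          exact szx _ ha_mem (by omega) q hqa hqc h1
        · have hqc : q ≠ c := by
            rintro rfl
            exact hMbc hMpq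
          rw [hX] at h1
          exact szx _ ha_mem (by omega) q hqr hqc h1
      · -- type B'
        obtain ⟨p, q, r, hpr, hqr, hMpq, hg, h1, h2, h3, h4⟩ := hT
        rcases two_letters hKD1 hab hqr.symm hL.fin hg with ⟨rfl, rfl⟩ | ⟨rfl, rfl, hM2⟩
        · have hpb : p ≠ q := by
            rintro rfl
            rw [M.diagonal] at hMpq
            omega
          have hpc : p ≠ c := by
            rintro rfl
            rw [M.symmetric] at hMpq
            exact hMbc hMpq
          rw [hY] at h1
          exact szy _ bk_mem (by omega) p hpb hpc h1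
        · have hpc : p ≠ c := by
            rintro rfl
            rw [M.symmetric] at hMpq
            exact hMac hMpq
          rw [hY] at h1
          exact szy _ bk_mem (by omega) p hpr hpc h1
      · -- type C
        obtain ⟨p, q, r, hpq, hpr, hMpq, hMqr, hg, h1, h2⟩ := hT
        have h6 := hL.big p q hpq hMpq
        have h7 := (hKD1 S W M cs p q hpq (hL.fin p q)).2.2.2.2.2.2.2.2.2.1 (by omega)
        rw [← hg, hab2] at h7
        omega
    rw [← hh, ← hk, heq, key, hab2, hXlen, hYlen]
    omega
  · -- second clause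
    have xh_nb : ¬ cs.IsRightDescent (x * h) b := szx h h_mem (by omega) b hab.symm hbc
    have hfull : Full cs b c (w0 cs b c) := (wbc_full _).2 ⟨wbc_mem, by omega⟩
    have := (geo b c (x * h) (w0 cs b c) y hbc (xr_pair xh_nb xh_nc) hfull hy).2 (by omega)
    rw [← hh, this, hlen_xh, wbc_len]
    omega

end Pool.Agent.Helper74.LF.C_RA0
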