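import Pool.Agent.Helper74.LF.GoalsR

/-!
# Project LL (MP_cc6379_al), packet LL-RC
-/

set_option autoImplicit false

open Pool.Agent.Helper15.RA Pool.Agent.Helper45.AM

namespace Pool.Agent.Helper74.LF.C_RC

open Pool.Agent.Helper74.LF

theorem simple_mem {S W : Type} [Group W] {M : CoxeterMatrix S} (cs : CoxeterSystem M W) {P : Set S}
    {i : S} (h : i ∈ P) : cs.simple i ∈ par cs P :=
  Subgroup.subset_closure (Set.mem_image_of_mem _ h)

/-- Products `X (a b a) Y` are reduced if `c` is not both a right descent of `X a` and a left descent of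
`a Y`. -/
theorem red_aba (hD1 : KD1) (hGEO : GEO) {S W : Type} [Group W] {M : CoxeterMatrix S}
    (cs : CoxeterSystem M W) (hM : Lg M) {a b : S} (hab : a ≠ b) (hMab : M a b ≠ 2)
    {X Y : W} (hX : XR cs {a, b} X) (hY : XL cs {a, b} Y)
    (hno : ∀ r, M b r = 2 → r ≠ a →
      ¬ (cs.IsRightDescent (X * cs.simple a) r ∧ cs.IsLeftDescent (cs.simple a * Y) r)) :
    cs.length (X * (cs.simple a * cs.simple b * cs.simple a) * Y) =
      cs.length X + 3 + cs.length Y := by
  have h7 := hM.big a b hab hMab
  obtain ⟨-, -, -, -, hfull, -, -, -, -, hl3, hne⟩ := hD1 S W M cs a b hab (hM.fin a b)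
  have hl : cs.length (cs.simple a * cs.simple b * cs.simple a) = 3 := hl3 (by omega)
  have hne' := hne h7
  have ha : cs.simple a ∈ par cs {a, b} := simple_mem cs (by simp)
  have hb : cs.simple b ∈ par cs {a, b} := simple_mem cs (by simp)
  have hmem : cs.simple a * cs.simple b * cs.simple a ∈ par cs {a, b} :=
    mul_mem (mul_mem ha hb) ha
  have hF : Full cs a b (cs.simple a * cs.simple b * cs.simple a) :=
    (hfull _).2 ⟨hmem, by omega⟩
  by_contra hcon
  have hs : ∀ p, cs.length (cs.simple p) = 1 := cs.length_simple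
  have h2 : ∀ p q, cs.length (cs.simple p * cs.simple q) ≤ 2 := fun p q => by
    have := cs.length_mul_le (cs.simple p) (cs.simple q)
    rw [hs, hs] at this
    exact this
  have hT := (hGEO S W M cs hM a b X _ Y hab hX hF hY).1 (by rw [hl]; exact hcon)
  rcases hT with ⟨p, q, r, -, -, -, h, -⟩ | ⟨p, q, r, -, -, -, h, -⟩ | ⟨p, q, r, -, -, -, h, -⟩ |
    ⟨p, q, r, hpq, hpr, -, hqr, h, h5, h6⟩
  · rw [h] at hl
    have := h2 p q
    omega
  · rw [h] at hl
    have := h2 p r
    omega
  · rw [h] at hl
    have := h2 r q
    omega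
  · have hw : cs.wordProd [p, q, p] = cs.simple a * cs.simple b * cs.simple a := by
      rw [h]
      simp [CoxeterSystem.wordProd_cons, mul_assoc]
    have hred : cs.IsReduced [p, q, p] := by
      unfold CoxeterSystem.IsReduced
      rw [hw, hl]
      rfl
    have hlet := ((Pool.Agent.Helper15.AM.k_gpb S W M cs).2 {a, b}).2.2.2.1 [p, q, p] hred
      (by rw [hw]; exact hmem)
    have hp : p = a ∨ p = b := hlet p (by simp)
    have hq : q = a ∨ q = b := hlet q (by simp)
    rcases hp with rfl | rfl
    · rcases hq with rfl | rfl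
      · exact hpq rfl
      · exact hno r hqr hpr.symm ⟨h5, h6⟩
    · rcases hq with rfl | rfl
      · exact hne' h
      · exact hpq rfl

theorem t (hD1 : KD1) (hD2 : KD2) (hK1 : K1) (hGEO : GEO) : RC := by
  intro S W _ M cs hM a b c x y hab hac hMab hbc hx hy hx0 _
  have hbc' : b ≠ c := by
    rintro rfl
    rw [M.diagonal] at hbc
    omega
  have hcb : M c b = 2 := by rw [M.symmetric]; exact hbc
  have hMac : M a c ≠ 2 := fun h => hMab (hM.tr c a b (by rw [M.symmetric]; exact h) hcb hab)
  have hm := hM.big a c hac hMac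
  obtain ⟨⟨hw0, -, -, hlw, -⟩, hz, -, -, -, -, -, -, hlac, -, -⟩ := hD1 S W M cs a c hac (hM.fin a c)
  obtain ⟨-, -, -, -, -, -, -, -, hlca, -, -⟩ := hD1 S W M cs c a hac.symm (hM.fin c a)
  have ha : cs.simple a ∈ par cs {a, c} := simple_mem cs (by simp)
  have hc : cs.simple c ∈ par cs {a, c} := simple_mem cs (by simp)
  have hs : ∀ p, cs.length (cs.simple p) = 1 := cs.length_simple
  have hxz := (Pool.Agent.Helper15.AM.k_gpa S W M cs {a, c}).2.2 x hx
  have hzy := (Pool.Agent.Helper15.AM.k_gpc S W M cs {a, c}).2.2.2.2.1 y hy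
  obtain ⟨-, -, hRd, hLd, -⟩ := hD2 S W M cs
  obtain ⟨-, -, -, -, -, -, hSZR, hSZL, -⟩ := hK1 S W M cs hM
  set w := w0 cs a c with hw
  have lh : cs.length (w * cs.simple c) + 1 = M a c := by
    have := (hz _ hc).2.2.1
    rwa [hs] at this
  have lk : cs.length (cs.simple c * w) + 1 = M a c := by
    have := (hz _ hc).2.2.2
    rwa [hs] at this
  have lwa : cs.length (w * cs.simple a) + 1 = M a c := by
    have := (hz _ ha).2.2.1
    rwa [hs] at this
  have lha : cs.length (w * cs.simple c * cs.simple a) + 2 = M a c := by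
    have := (hz _ (mul_mem hc ha)).2.2.1
    rwa [hlca, ← mul_assoc] at this
  have lak : cs.length (cs.simple a * (cs.simple c * w)) + 2 = M a c := by
    have := (hz _ (mul_mem ha hc)).2.2.2
    rwa [hlac, mul_assoc] at this
  have hmh : w * cs.simple c ∈ par cs {a, c} := mul_mem hw0 hc
  have hmk : cs.simple c * w ∈ par cs {a, c} := mul_mem hc hw0
  have hmha : w * cs.simple c * cs.simple a ∈ par cs {a, c} := mul_mem hmh ha
  have hmak : cs.simple a * (cs.simple c * w) ∈ par cs {a, c} := mul_mem ha hmk
  have hmwa : w * cs.simple a ∈ par cs {a, c} := mul_mem hw0 ha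
  -- the two sides
  have eX : x * (w * cs.simple c * cs.simple a) * cs.simple a = x * (w * cs.simple c) := by
    rw [mul_assoc, cs.simple_mul_simple_cancel_right]
  have eY : cs.simple a * (cs.simple a * (cs.simple c * w) * y) = cs.simple c * w * y := by
    rw [mul_assoc, cs.simple_mul_simple_cancel_left]
  have hX : XR cs {a, b} (x * (w * cs.simple c * cs.simple a)) := by
    intro i hi
    rcases hi with rfl | rfl
    · rw [eX, hxz _ hmh, hxz _ hmha]
      omega
    · refine (cs.not_isRightDescent_iff).1 fun hd => ?_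
      have := hSZR a i c x _ hac hab.symm hbc' hx hmha hd
      omega
  have hY : XL cs {a, b} (cs.simple a * (cs.simple c * w) * y) := by
    intro i hi
    rcases hi with rfl | rfl
    · rw [eY, hzy _ hmk, hzy _ hmak]
      omega
    · refine (cs.not_isLeftDescent_iff).1 fun hd => ?_
      have := hSZL a i c y _ hac hab.symm hbc' hy hmak hd
      omega
  have hnR : ¬ cs.IsRightDescent (x * (w * cs.simple c * cs.simple a) * cs.simple a) c := by
    rw [eX, hRd {a, c} x _ c hx hmh (by simp)]
    intro hd
    have := (cs.isRightDescent_iff).1 hd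
    rw [cs.simple_mul_simple_cancel_right] at this
    omega
  have hnL : ¬ cs.IsLeftDescent (cs.simple a * (cs.simple a * (cs.simple c * w) * y)) c := by
    rw [eY, hLd {a, c} y _ c hy hmk (by simp)]
    intro hd
    have := (cs.isLeftDescent_iff).1 hd
    rw [cs.simple_mul_simple_cancel_left] at this
    omega
  constructor
  · have h1 := red_aba hD1 hGEO cs hM hab hMab hX hY fun r _ hra h => by
      by_cases hrc : r = c
      · subst hrc
        exact hnR h.1
      · have hd := h.1
        rw [eX] at hd
        have := hSZR a r c x _ hac hra hrc hx hmh hd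
        omega
    have e : x * (w * cs.simple c * cs.simple a) * (cs.simple a * cs.simple b * cs.simple a) *
        (cs.simple a * (cs.simple c * w) * y) =
        x * (w * cs.simple c) * cs.simple b * (cs.simple c * w) * y := by
      have e1 : x * (w * cs.simple c * cs.simple a) * (cs.simple a * cs.simple b * cs.simple a) =
          x * (w * cs.simple c) * cs.simple b * cs.simple a := by
        rw [← mul_assoc, ← mul_assoc, eX]
      rw [e1, mul_assoc (x * (w * cs.simple c) * cs.simple b) (cs.simple a), eY]
      simp only [mul_assoc]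
    rw [e, hxz _ hmha, hzy _ hmak] at h1
    omega
  · have hX0 : XR cs {a, b} (x * (w * cs.simple a)) := by
      rw [← mul_assoc]
      exact hx0
    have eX0 : x * (w * cs.simple a) * cs.simple a = x * w := by
      rw [mul_assoc, cs.simple_mul_simple_cancel_right]
    have h1 := red_aba hD1 hGEO cs hM hab hMab hX0 hY fun r _ hra h => by
      by_cases hrc : r = c
      · subst hrc
        exact hnL h.2
      · have hd := h.1
        rw [eX0] at hd
        have := hSZR a r c x _ hac hra hrc hx hw0 hd
        omega
    have e : x * (w * cs.simple a) * (cs.simple a * cs.simple b * cs.simple a) *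
        (cs.simple a * (cs.simple c * w) * y) =
        x * w * cs.simple b * (cs.simple c * w) * y := by
      have e1 : x * (w * cs.simple a) * (cs.simple a * cs.simple b * cs.simple a) =
          x * w * cs.simple b * cs.simple a := by
        rw [← mul_assoc, ← mul_assoc, eX0]
      rw [e1, mul_assoc (x * w * cs.simple b) (cs.simple a), eY]
      simp only [mul_assoc]
    rw [e, hxz _ hmwa, hzy _ hmak] at h1
    omega

end Pool.Agent.Helper74.LF.C_RC
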