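import Pool.Agent.Helper74.LF.GoalsG
import Pool.Agent.Helper15.AM.All

/-!
# Project LL (MP_cc6379_al), packet TR
-/

set_option autoImplicit false

namespace Pool.Agent.Helper74.LF.C_TR

open Pool.Agent.Helper15.RA Pool.Agent.Helper45.AM Pool.Agent.Helper74.LF

variable {S W : Type} [Group W] {M : CoxeterMatrix S} (cs : CoxeterSystem M W)

/-- letters of a reduced product of two parts -/
lemma mem_of_red {P : Set S} {u : W} {a : S}
    (h : cs.length (u * cs.simple a) = cs.length u + 1) (hm : u * cs.simple a ∈ par cs P) :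
    u ∈ par cs P ∧ a ∈ P := by
  obtain ⟨-, hP⟩ := Pool.Agent.Helper15.AM.k_gpb S W M cs
  obtain ⟨h1, -, -, -, h6, -⟩ := hP P
  have := h6 u (cs.simple a) (by rw [h, cs.length_simple]) hm
  exact ⟨this.1, h1 a this.2⟩

lemma mem_two {P : Set S} {a b : S} (h : cs.length (cs.simple a * cs.simple b) = 2)
    (hm : cs.simple a * cs.simple b ∈ par cs P) : a ∈ P ∧ b ∈ P := by
  obtain ⟨-, hP⟩ := Pool.Agent.Helper15.AM.k_gpb S W M cs
  obtain ⟨h1, -⟩ := hP P
  have := mem_of_red cs (u := cs.simple a) (a := b) (by rw [h, cs.length_simple]) hm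
  exact ⟨h1 a this.1, this.2⟩

theorem t (hKD1 : KD1) (hKD2 : KD2) : TR := by
  intro S W _ M cs hM i j x g Y y₁ hij hxR hg hlen hyL hT
  obtain ⟨-, -, -, -, h5, h6, -, h8, -, h10, h11⟩ := hKD2 S W M cs
  have hYL : XL cs {i, j} Y := h8 _ Y y₁ hyL hlen
  have hred : ∀ (u v : W) (e : S), cs.length (u * v) = cs.length u + cs.length v →
      cs.IsLeftDescent u e → cs.IsLeftDescent (u * v) e := fun u v e h => (h10 u v e h).2
  -- a prefix `e Y` of `e y`
  have hup : ∀ e ∈ ({i, j} : Set S), ∀ c, cs.IsLeftDescent (cs.simple e * Y) c →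
      cs.IsLeftDescent (cs.simple e * (Y * y₁)) c := by
    intro e he c hc
    have e1 := hYL e he
    have e2 := hyL e he
    rw [← mul_assoc] at e2 ⊢
    refine hred _ _ c ?_ hc
    rw [e2, e1, hlen]
    omega
  have h22 : ∀ a b, M a b = 2 → a ≠ b := by
    rintro a b h rfl
    rw [M.diagonal] at h
    omega
  have hl2 : ∀ a b, a ≠ b → cs.length (cs.simple a * cs.simple b) = 2 := by
    intro a b hab
    obtain ⟨-, -, -, -, -, -, -, -, h, -⟩ := hKD1 S W M cs a b hab (hM.fin a b)
    exact h
  have hl3 : ∀ a b, a ≠ b → 3 ≤ M a b → cs.length (cs.simple a * cs.simple b * cs.simple a) = 3 := by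
    intro a b hab
    obtain ⟨-, -, -, -, -, -, -, -, -, h, -⟩ := hKD1 S W M cs a b hab (hM.fin a b)
    exact h
  rcases hT with hT | hT | hT | hT
  · -- TA
    obtain ⟨a, b, c, hab, hac, hbc, rfl, hx, hy⟩ := hT
    have hm := mem_two cs (hl2 a b hab) hg
    exact Or.inl ⟨a, b, c, hab, hac, hbc, rfl, hx, hup b hm.2 c hy⟩
  · -- TB
    obtain ⟨a, b, c, hac, hbc, hab, rfl, hxb, hxc, hnb, hc⟩ := hT
    have hm := mem_two cs (hl2 a c hac) hg
    by_cases hb : cs.IsLeftDescent (cs.simple c * (Y * y₁)) b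
    · refine Or.inl ⟨a, c, b, hac, h22 a b hab, Ne.symm hbc, rfl, ?_, hb⟩
      refine h5 a b x hab ?_ hxb
      rw [cs.not_isRightDescent_iff]
      exact hxR a hm.1
    · refine Or.inr (Or.inl ⟨a, b, c, hac, hbc, hab, rfl, hxb, hxc, hb, ?_⟩)
      rw [cs.not_isLeftDescent_iff] at hb hnb
      have e1 := hYL c hm.2
      have e2 := hyL c hm.2
      have e3 : cs.simple b * cs.simple c * (Y * y₁) = cs.simple b * cs.simple c * Y * y₁ := by
        simp only [mul_assoc]
      rw [e3]
      refine hred _ _ c ?_ hc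
      rw [← e3]
      have e4 : cs.simple b * cs.simple c * (Y * y₁) = cs.simple b * (cs.simple c * (Y * y₁)) := by
        simp only [mul_assoc]
      have e5 : cs.simple b * cs.simple c * Y = cs.simple b * (cs.simple c * Y) := by
        simp only [mul_assoc]
      rw [e4, e5, hb, hnb, e1, e2, hlen]
      omega
  · -- TBm
    obtain ⟨a, b, c, hac, hbc, hab, rfl, hYa, hYc, hna, hxc⟩ := hT
    have hm := mem_two cs (hl2 c b (Ne.symm hbc)) hg
    have hya : cs.IsLeftDescent (Y * y₁) a := hred _ _ a hlen hYa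
    -- `b` is not a left descent of `a z`
    have key : ∀ z : W, XL cs {i, j} z → cs.IsLeftDescent z a →
        cs.length (cs.simple b * (cs.simple a * z)) = cs.length z := by
      intro z hz hza
      have hza' := cs.isLeftDescent_iff.1 hza
      have h1 : ¬ cs.IsLeftDescent (cs.simple a * z) a := by
        rw [cs.not_isLeftDescent_iff, cs.simple_mul_simple_cancel_left]
        omega
      have h2 : ¬ cs.IsLeftDescent (cs.simple a * z) b := by
        intro h
        have h3 := h6 a b (cs.simple a * z) hab h1 h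
        rw [cs.simple_mul_simple_cancel_left, cs.isLeftDescent_iff] at h3
        have h4 := hz b hm.2
        omega
      rw [cs.not_isLeftDescent_iff] at h2
      omega
    have k1 := key Y hYL hYa
    have k2 := key (Y * y₁) hyL hya
    refine Or.inr (Or.inr (Or.inl ⟨a, b, c, hac, hbc, hab, rfl, hya, ?_, hna, hxc⟩))
    have e3 : cs.simple b * cs.simple a * (Y * y₁) = cs.simple b * cs.simple a * Y * y₁ := by
      simp only [mul_assoc]
    rw [e3]
    refine hred _ _ c ?_ hYc
    rw [← e3]
    have e4 : cs.simple b * cs.simple a * (Y * y₁) = cs.simple b * (cs.simple a * (Y * y₁)) := by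
      simp only [mul_assoc]
    have e5 : cs.simple b * cs.simple a * Y = cs.simple b * (cs.simple a * Y) := by
      simp only [mul_assoc]
    rw [e4, e5, k1, k2, hlen]
  · -- TC
    obtain ⟨a, b, c, hab, hac, hne, hbc, rfl, hx, hy⟩ := hT
    have h7 := hM.big a b hab hne
    have h3 := hl3 a b hab (by omega)
    have hm := mem_of_red cs (u := cs.simple a * cs.simple b) (a := a)
      (by rw [h3, hl2 a b hab]) hg
    exact Or.inr (Or.inr (Or.inr ⟨a, b, c, hab, hac, hne, hbc, rfl, hx, hup a hm.2 c hy⟩))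

end Pool.Agent.Helper74.LF.C_TR
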