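import Pool.Agent.Helper74.LF.GoalsH

/-!
# Project LE (MP_cc6379_al), packet UCH: type C, direct estimates (helper45; set-up copied from Helper51/LL/UC)
-/

set_option autoImplicit false

open LaurentPolynomial Pool.Agent.Helper15.RA Pool.Agent.Helper45.AM Pool.Agent.Helper74.LF Pool.Agent.Helper74.LF

noncomputable section

namespace Pool.Agent.Helper74.LF.C_UCH

section
variable {S W H : Type} [Group W] [Ring H] [Algebra ℤ[T;T⁻¹] H]

theorem ge_self (X : TF S W H) {a c : S} {g : W} {m : ℕ} (hg : g ∈ par X.cs {a, c}) (hm : m ≤ X.α g) :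
    X.Ge m g := by
  refine ⟨1, g, 1, {a, c}, Or.inr ⟨a, c, rfl⟩, hg, by simp, ?_, hm⟩
  simp

theorem mul3 (X : TF S W H) {u g v : W}
    (h : X.cs.length (u * g * v) = X.cs.length u + X.cs.length g + X.cs.length v) :
    X.D.t u * X.D.t g * X.D.t v = X.D.t (u * g * v) := by
  have h1 : X.cs.length (u * g) = X.cs.length u + X.cs.length g := by
    have h2 := X.cs.length_mul_le u g
    have h3 := X.cs.length_mul_le (u * g) v
    omega
  rw [X.D.mul u g h1, X.D.mul (u * g) v (by rw [h, h1])]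

/-- left multiplication by a simple reflection, going up -/
theorem tl (X : TF S W H) {i : S} {w : W}
    (h : X.cs.length (X.cs.simple i * w) = X.cs.length w + 1) :
    X.D.t (X.cs.simple i) * X.D.t w = X.D.t (X.cs.simple i * w) :=
  X.D.mul _ _ (by rw [h, X.cs.length_simple, add_comm])

/-- right multiplication by a simple reflection, going up -/
theorem tr (X : TF S W H) {i : S} {w : W}
    (h : X.cs.length (w * X.cs.simple i) = X.cs.length w + 1) :
    X.D.t w * X.D.t (X.cs.simple i) = X.D.t (w * X.cs.simple i) :=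
  X.D.mul _ _ (by rw [h, X.cs.length_simple])

theorem tsq (X : TF S W H) (i : S) : X.D.t (X.cs.simple i) * X.D.t (X.cs.simple i) =
    xi (X.L (X.cs.simple i)) • X.D.t (X.cs.simple i) + 1 := by
  obtain ⟨h1, -, h2, -⟩ := g_h1 S W H X.M X.cs X.L X.D.toHecke0
  have := h2 i (X.cs.simple i) (by rw [X.cs.simple_mul_simple_self]; simp)
  rw [this, X.cs.simple_mul_simple_self, h1]

/-- `T_u T_a T_a T_v` from `N0` and `N1` -/
theorem twice (X : TF S W H) {M n : ℕ} (hN0 : X.N0 M n) (hN1 : X.N1 M n) {u v : W} {a : S}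
    (hu : ¬ X.cs.IsRightDescent u a) (hv : ¬ X.cs.IsLeftDescent v a)
    (hn : X.cs.length u + X.cs.length v ≤ n) :
    X.LP M M (X.D.t u * X.D.t (X.cs.simple a) * (X.D.t (X.cs.simple a) * X.D.t v)) := by
  have h1 : X.D.t u * X.D.t (X.cs.simple a) * (X.D.t (X.cs.simple a) * X.D.t v) =
      xi (X.L (X.cs.simple a)) • (X.D.t u * X.D.t (X.cs.simple a) * X.D.t v) + X.D.t u * X.D.t v := by
    calc X.D.t u * X.D.t (X.cs.simple a) * (X.D.t (X.cs.simple a) * X.D.t v)
        = X.D.t u * (X.D.t (X.cs.simple a) * X.D.t (X.cs.simple a)) * X.D.t v := by noncomm_ring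
      _ = _ := by
          rw [tsq, mul_add, mul_one, add_mul, mul_smul_comm, smul_mul_assoc]
  rw [h1]
  refine TF.LP.add (TF.LP.smul_xi (hN1 u v a hu hv hn) ?_) (hN0 u v hn)
  omega

end

theorem t (kd1 : KD1) (kd2 : KD2) (k1 : K1) (hwt : HWT) (hw0 : HW0) (rc : RC) (hrl : HRL) : UCH := by
  intro S W H _ _ _ X M n a b c x y hId hN0 hN1 hab hac hMab hbc hx hy hcx hcy hn
  obtain ⟨hL1, hLpos, hLinv, hL⟩ := hwt S W H X
  have hLg : Lg X.M := ⟨X.fin, X.tr, X.big⟩
  obtain ⟨hα1, hαs, hα⟩ := hw0 S W H X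
  obtain ⟨k2a, k2b, k2c, k2d, -, -, -, -, -, -, k2k⟩ := kd2 S W X.M X.cs
  obtain ⟨-, -, -, -, -, -, hSZ, hSZl, -, -⟩ := k1 S W X.M X.cs hLg
  have hsymm : ∀ i j, X.M i j = X.M j i := fun i j => X.M.symmetric i j
  have hMac : X.M a c ≠ 2 := fun h => hMab (X.tr c a b (by rw [hsymm]; exact h) (by rw [hsymm]; exact hbc) hab)
  have hm7 : 6 ≤ X.M a c := hLg.big a c hac hMac
  have hm7b : 6 ≤ X.M a b := hLg.big a b hab hMab
  have hcb : X.cs.simple c * X.cs.simple b = X.cs.simple b * X.cs.simple c := (k2k b c hbc).symm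
  have hbc' : b ≠ c := by
    rintro rfl
    rw [X.M.diagonal] at hbc
    norm_num at hbc
  obtain ⟨⟨hwmem, hwsym, hwinv, hwlen, hww⟩, hz1, hz2, ⟨hwRa, hwRc, hwLa, hwLc⟩, -, hzsm, -⟩ :=
    kd1 S W X.M X.cs a c hac (X.fin a c)
  obtain ⟨-, -, -, -, hfull, -, -, -, hl2, hl3, -⟩ := kd1 S W X.M X.cs a b hab (X.fin a b)
  obtain ⟨⟨vmem, -, -, vlen, -⟩, vz1, -, -, -, vsm, -, v2, vl2, -, -⟩ := kd1 S W X.M X.cs b c hbc' (X.fin b c)
  have hssa : ∀ i, X.cs.simple i * X.cs.simple i = 1 := fun i => X.cs.simple_mul_simple_self i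
  -- membership
  have haM : X.cs.simple a ∈ par X.cs {a, c} := Subgroup.subset_closure ⟨a, by simp, rfl⟩
  have hcM : X.cs.simple c ∈ par X.cs {a, c} := Subgroup.subset_closure ⟨c, by simp, rfl⟩
  have haB : X.cs.simple a ∈ par X.cs {a, b} := Subgroup.subset_closure ⟨a, by simp, rfl⟩
  have hbB : X.cs.simple b ∈ par X.cs {a, b} := Subgroup.subset_closure ⟨b, by simp, rfl⟩
  have hbV : X.cs.simple b ∈ par X.cs {b, c} := Subgroup.subset_closure ⟨b, by simp, rfl⟩
  have hcV : X.cs.simple c ∈ par X.cs {b, c} := Subgroup.subset_closure ⟨c, by simp, rfl⟩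
  have gpa := fun P => Pool.Agent.Helper15.AM.k_gpa S W X.M X.cs P
  have gpc := fun P => Pool.Agent.Helper15.AM.k_gpc S W X.M X.cs P
  -- the elements x₅, y₅
  have hxa : X.cs.length (x * X.cs.simple a) = X.cs.length x + 1 := hx a (by simp)
  have hya : X.cs.length (X.cs.simple a * y) = X.cs.length y + 1 := hy a (by simp)
  have hxnd : ¬ X.cs.IsRightDescent x a := by
    rw [X.cs.not_isRightDescent_iff]
    exact hxa
  have hynd : ¬ X.cs.IsLeftDescent y a := by
    rw [X.cs.not_isLeftDescent_iff]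
    exact hya
  have hRa : X.cs.IsRightDescent (x * X.cs.simple a) a := by
    show X.cs.length (x * X.cs.simple a * X.cs.simple a) < _
    rw [mul_assoc, hssa, mul_one, hxa]; omega
  have hLa : X.cs.IsLeftDescent (X.cs.simple a * y) a := by
    show X.cs.length (X.cs.simple a * (X.cs.simple a * y)) < _
    rw [← mul_assoc, hssa, one_mul, hya]; omega
  obtain ⟨⟨x₅, hx5, hx5e, hx5l⟩, -⟩ := k2a a c hac (X.fin a c) _ hRa hcx
  obtain ⟨⟨y₅, hy5, hy5e, hy5l⟩, -⟩ := k2b a c hac (X.fin a c) _ hLa hcy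
  set w := w0 X.cs a c with hw
  -- h = w c, k = c w
  have hx' : x = x₅ * w * X.cs.simple a := by
    rw [← hx5e, mul_assoc, hssa, mul_one]
  have hy' : y = X.cs.simple a * w * y₅ := by
    rw [mul_assoc, ← hy5e, ← mul_assoc, hssa, one_mul]
  have lx5 : ∀ g ∈ par X.cs {a, c}, X.cs.length (x₅ * g) = X.cs.length x₅ + X.cs.length g :=
    fun g hg => (gpa {a, c}).2.2 x₅ hx5 g hg
  have ly5 : ∀ g ∈ par X.cs {a, c}, X.cs.length (g * y₅) = X.cs.length g + X.cs.length y₅ :=
    fun g hg => (gpc {a, c}).2.2.2.2.1 y₅ hy5 g hg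
  have hwcl : X.cs.length (w * X.cs.simple c) + 1 = X.M a c := by
    rw [X.cs.isRightDescent_iff.1 hwRc, hwlen]
  have hcwl : X.cs.length (X.cs.simple c * w) + 1 = X.M a c := by
    rw [X.cs.isLeftDescent_iff.1 hwLc, hwlen]
  have hlx : X.cs.length x + 1 = X.cs.length x₅ + X.M a c := by rw [← hxa, hx5l]
  have hly : X.cs.length y + 1 = X.M a c + X.cs.length y₅ := by rw [← hya, hy5l]
  obtain ⟨rc1, rc2⟩ := rc S W X.M X.cs hLg a b c x₅ y₅ hab hac hMab hbc hx5 hy5 (by rw [← hw, ← hx']; exact hx)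
    (by rw [← hw, ← hy']; exact hy)
  rw [← hw] at rc1 rc2
  have hwcM : w * X.cs.simple c ∈ par X.cs {a, c} := mul_mem hwmem hcM
  have hcwM : X.cs.simple c * w ∈ par X.cs {a, c} := mul_mem hcM hwmem
  -- products
  have e1 : X.D.t x * X.D.t (X.cs.simple a) = X.D.t (x₅ * w) := by rw [tr X hxa, hx5e]
  have e2 : X.D.t (X.cs.simple a) * X.D.t y = X.D.t (w * y₅) := by rw [tl X hya, hy5e]
  have habal : X.cs.length (X.cs.simple a * X.cs.simple b * X.cs.simple a) = 3 := hl3 (by omega)
  have eaba : X.D.t (X.cs.simple a * X.cs.simple b * X.cs.simple a) =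
      X.D.t (X.cs.simple a) * X.D.t (X.cs.simple b) * X.D.t (X.cs.simple a) := by
    rw [mul3 X (by rw [habal, X.cs.length_simple, X.cs.length_simple])]
  have e3 : X.D.t x * X.D.t (X.cs.simple a * X.cs.simple b * X.cs.simple a) * X.D.t y =
      X.D.t (x₅ * w) * (X.D.t (X.cs.simple b) * X.D.t (w * y₅)) := by
    rw [eaba, ← e1, ← e2]; noncomm_ring
  have e4 : X.D.t (x₅ * (w * X.cs.simple c)) * X.D.t (X.cs.simple c) = X.D.t (x₅ * w) := by
    rw [tr X]
    · congr 1
      rw [mul_assoc, mul_assoc, hssa, mul_one]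
    · rw [mul_assoc, mul_assoc, hssa, mul_one, lx5 w hwmem, lx5 _ hwcM, hwlen]; omega
  have e5 : X.D.t (X.cs.simple c) * X.D.t (X.cs.simple c * w * y₅) = X.D.t (w * y₅) := by
    rw [tl X]
    · congr 1
      rw [← mul_assoc, ← mul_assoc, hssa, one_mul]
    · rw [← mul_assoc, ← mul_assoc, hssa, one_mul, ly5 w hwmem, ly5 _ hcwM, hwlen]; omega
  have e6 : X.D.t (X.cs.simple c) * X.D.t (X.cs.simple b) =
      X.D.t (X.cs.simple b) * X.D.t (X.cs.simple c) := by
    rw [X.D.mul (X.cs.simple b) (X.cs.simple c) (by rw [vl2, X.cs.length_simple, X.cs.length_simple]),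
      X.D.mul (X.cs.simple c) (X.cs.simple b) (by rw [hcb, vl2, X.cs.length_simple, X.cs.length_simple]), hcb]
  -- reduced products
  have e7 : X.D.t (x₅ * (w * X.cs.simple c)) * X.D.t (X.cs.simple b) * X.D.t (X.cs.simple c * w * y₅) =
      X.D.t (x₅ * (w * X.cs.simple c) * X.cs.simple b * (X.cs.simple c * w * y₅)) := by
    apply mul3
    rw [lx5 _ hwcM, ly5 _ hcwM, X.cs.length_simple, ← mul_assoc]
    omega
  have e8 : X.D.t (x₅ * w) * X.D.t (X.cs.simple b) * X.D.t (X.cs.simple c * w * y₅) =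
      X.D.t (x₅ * w * X.cs.simple b * (X.cs.simple c * w * y₅)) := by
    apply mul3
    rw [lx5 _ hwmem, ly5 _ hcwM, X.cs.length_simple, ← mul_assoc, hwlen]
    omega
  have e10 : X.D.t (x₅ * w) * (X.D.t (X.cs.simple b) * X.D.t (w * y₅)) =
      X.D.t (x₅ * (w * X.cs.simple c) * X.cs.simple b * (X.cs.simple c * w * y₅)) +
      xi (X.L (X.cs.simple c)) • X.D.t (x₅ * w * X.cs.simple b * (X.cs.simple c * w * y₅)) := by
    rw [← e7, ← e8]
    calc X.D.t (x₅ * w) * (X.D.t (X.cs.simple b) * X.D.t (w * y₅))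
        = X.D.t (x₅ * (w * X.cs.simple c)) * (X.D.t (X.cs.simple c) * X.D.t (X.cs.simple b)) *
          (X.D.t (X.cs.simple c) * X.D.t (X.cs.simple c * w * y₅)) := by
          rw [← e4, ← e5]; noncomm_ring
      _ = X.D.t (x₅ * (w * X.cs.simple c)) * X.D.t (X.cs.simple b) *
          (X.D.t (X.cs.simple c) * X.D.t (X.cs.simple c)) * X.D.t (X.cs.simple c * w * y₅) := by
          rw [e6]; noncomm_ring
      _ = X.D.t (x₅ * (w * X.cs.simple c)) * X.D.t (X.cs.simple b) *
          X.D.t (X.cs.simple c * w * y₅) + xi (X.L (X.cs.simple c)) •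
          (X.D.t (x₅ * (w * X.cs.simple c)) * (X.D.t (X.cs.simple b) * X.D.t (X.cs.simple c)) *
            X.D.t (X.cs.simple c * w * y₅)) := by
          rw [tsq X c, mul_add, mul_one, add_mul, mul_smul_comm, smul_mul_assoc, add_comm]
          congr 2
          noncomm_ring
      _ = _ := by
          rw [← e6, ← e4]
          congr 2
          noncomm_ring
  have hc1 := hLpos c
  have hb1 := hLpos b
  have hlV : X.α (w0 X.cs b c) = X.l b + X.l c := by
    rw [(hα b c hbc').1]
    exact (hL b c hbc').2.1 hbc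
  have hLV : X.L (w0 X.cs b c) = X.l b + X.l c := (hL b c hbc').2.1 hbc
  have v2' : w0 X.cs b c = X.cs.simple b * X.cs.simple c := (v2 hbc).1
  have hlc : X.l c = X.L (X.cs.simple c) := rfl
  have hlb : X.l b = X.L (X.cs.simple b) := rfl
  rw [e3]
  refine ⟨?_, ?_, ?_⟩
  · rw [e10]
    refine TF.LP.add ((TF.LP.t M _).mono ?_) (TF.LP.smul_xi (TF.LP.t M _) ?_)
    · omega
    · omega
  · intro hM
    rw [e10]
    refine TF.LP.add ((TF.LP.t M _).mono ?_) (TF.LP.smul_xi (TF.LP.t_of_ge ?_) (k := 0) ?_)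
    · omega
    · refine ⟨x₅ * (w * X.cs.simple c), X.cs.simple b * X.cs.simple c, X.cs.simple c * w * y₅, {b, c},
        Or.inr ⟨b, c, rfl⟩, mul_mem hbV hcV, ?_, ?_, ?_⟩
      · rw [← hcb]
        simp only [mul_assoc, X.cs.simple_mul_simple_cancel_left]
      · rw [lx5 _ hwcM, ly5 _ hcwM, vl2, ← mul_assoc]
        omega
      · rw [← v2', hlV, hM]
    · omega
  · intro hM1 hM2
    -- `k y₅` is shortest in its coset
    have hknc : ¬ X.cs.IsLeftDescent (X.cs.simple c * w) c := by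
      rw [X.cs.not_isLeftDescent_iff, X.cs.simple_mul_simple_cancel_left, hwlen]
      omega
    have hky : XL X.cs {b, c} (X.cs.simple c * w * y₅) := by
      rintro i (rfl | hi)
      · rw [← X.cs.not_isLeftDescent_iff]
        intro hcon
        have := hSZl a i c y₅ (X.cs.simple c * w) hac hab.symm hbc' hy5 hcwM hcon
        omega
      · rw [Set.mem_singleton_iff] at hi
        subst hi
        rw [← X.cs.not_isLeftDescent_iff]
        exact fun hcon => hknc ((k2d {a, i} y₅ _ i hy5 hcwM (by simp)).1 hcon)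
    have hkyc := hky c (by simp)
    have hkyb := hky b (by simp)
    have e11 : X.D.t (X.cs.simple b) * X.D.t (w * y₅) =
        X.D.t (w0 X.cs b c * (X.cs.simple c * w * y₅)) := by
      rw [← e5, ← mul_assoc, X.D.mul (X.cs.simple b) (X.cs.simple c)
        (by rw [vl2, X.cs.length_simple, X.cs.length_simple]), ← v2', X.D.mul]
      exact (gpc {b, c}).2.2.2.2.1 _ hky _ vmem
    rw [e11]
    have hGe : X.Ge (M + 1) (w0 X.cs b c) := ge_self X vmem (by rw [hlV]; omega)
    refine (hrl S W H X M _ b c _ hbc' hId hGe).2 _ hky (fun z hz hzw => ?_)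
    have hzlen : X.cs.length z < 2 := by
      have := (vz1 z hz).2.1 hzw
      omega
    have h01 : X.cs.length z = 0 ∨ X.cs.length z = 1 := by omega
    rcases h01 with h0 | h1
    · -- z = 1
      have hz : z = 1 := X.cs.length_eq_zero_iff.1 h0
      subst hz
      rw [one_mul, hL1, hLV]
      -- u = x₅ h a
      have hhne : w * X.cs.simple c ≠ 1 := by
        intro h
        rw [h, X.cs.length_one] at hwcl
        omega
      have hhnc : ¬ X.cs.IsRightDescent (w * X.cs.simple c) c := by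
        rw [X.cs.not_isRightDescent_iff, X.cs.simple_mul_simple_cancel_right, hwlen]
        omega
      have hhRa : X.cs.IsRightDescent (w * X.cs.simple c) a :=
        ((hz2 _ hwcM).2 hhne).1.resolve_right hhnc
      have hhal := X.cs.isRightDescent_iff.1 hhRa
      have hhaM : w * X.cs.simple c * X.cs.simple a ∈ par X.cs {a, c} := mul_mem hwcM haM
      have huna : ¬ X.cs.IsRightDescent (x₅ * (w * X.cs.simple c * X.cs.simple a)) a := by
        rw [k2c {a, c} x₅ _ a hx5 hhaM (by simp), X.cs.not_isRightDescent_iff,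
          X.cs.simple_mul_simple_cancel_right]
        omega
      have e12 : X.D.t (x₅ * (w * X.cs.simple c)) =
          X.D.t (x₅ * (w * X.cs.simple c * X.cs.simple a)) * X.D.t (X.cs.simple a) := by
        rw [tr X (X.cs.not_isRightDescent_iff.1 huna)]
        congr 1
        rw [mul_assoc x₅, X.cs.simple_mul_simple_cancel_right]
      have e13 : X.D.t (x₅ * w) * X.D.t (X.cs.simple c * w * y₅) =
          X.D.t (x₅ * (w * X.cs.simple c * X.cs.simple a)) * X.D.t (X.cs.simple a) *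
            (X.D.t (X.cs.simple a) * X.D.t y) := by
        rw [← e4, e2, ← e5, e12]
        noncomm_ring
      rw [e13]
      refine (twice X hN0 hN1 huna hynd ?_).mono ?_
      · rw [lx5 _ hhaM]
        omega
      · push_cast
        omega
    · rcases (vsm z hz).1 h1 with rfl | rfl
      · -- z = b
        rw [← tl X hkyb, ← mul_assoc, e8, hLV]
        refine (TF.LP.t M _).mono ?_
        push_cast
        omega
      · -- z = c
        rw [← tl X hkyc, e5, ← e1, ← e2, hLV]
        refine (twice X hN0 hN1 hxnd hynd hn.le).mono ?_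
        push_cast
        omega

end Pool.Agent.Helper74.LF.C_UCH
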