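import Pool.Agent.Helper74.LF.GoalsH

/-!
# Project LE (MP_cc6379_al), packet LE-UCL: type C, low level, general form.

Adapted from the LOW part of `Pool.Agent.Helper51.LL.UC`.
-/

set_option autoImplicit false

open LaurentPolynomial Pool.Agent.Helper15.RA Pool.Agent.Helper45.AM Pool.Agent.Helper74.LF
  Pool.Agent.Helper74.LF

noncomputable section

namespace Pool.Agent.Helper74.LF.C_UCL

section
variable {S W H : Type} [Group W] [Ring H] [Algebra ℤ[T;T⁻¹] H]

theorem mul3 (X : TF S W H) {u g v : W}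
    (h : X.cs.length (u * g * v) = X.cs.length u + X.cs.length g + X.cs.length v) :
    X.D.t u * X.D.t g * X.D.t v = X.D.t (u * g * v) := by
  have h1 : X.cs.length (u * g) = X.cs.length u + X.cs.length g := by
    have h2 := X.cs.length_mul_le u g
    have h3 := X.cs.length_mul_le (u * g) v
    omega
  rw [X.D.mul u g h1, X.D.mul (u * g) v (by rw [h, h1])]

/-- left multiplication by a simple reflection, going up -/
theorem tl (X : TF S W H) {i : S} {w : W}
    (h : X.cs.length (X.cs.simple i * w) = X.cs.length w + 1) :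
    X.D.t (X.cs.simple i) * X.D.t w = X.D.t (X.cs.simple i * w) :=
  X.D.mul _ _ (by rw [h, X.cs.length_simple, add_comm])

/-- right multiplication by a simple reflection, going up -/
theorem tr (X : TF S W H) {i : S} {w : W}
    (h : X.cs.length (w * X.cs.simple i) = X.cs.length w + 1) :
    X.D.t w * X.D.t (X.cs.simple i) = X.D.t (w * X.cs.simple i) :=
  X.D.mul _ _ (by rw [h, X.cs.length_simple])

end

theorem t (kd1 : KD1) (kd2 : KD2) (k1 : K1) (hwt : HWT) (rc : RC) (hrl : HRL) : UCL := by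
  intro S W H _ _ _ X M n K β₂ β₃ a b c x y hId hN0 hN2 hab hac hMab hbc hx hy hcx hcy hn hlast hGe hK0 hK1
    hB2 hB2K hB3 hB3K
  obtain ⟨hL1, hLpos, hLinv, hL⟩ := hwt S W H X
  have hLg : Lg X.M := ⟨X.fin, X.tr, X.big⟩
  obtain ⟨k2a, k2b, k2c, k2d, -, -, -, -, -, -, k2k⟩ := kd2 S W X.M X.cs
  obtain ⟨-, -, -, -, -, -, hSZ, hSZl, -, -⟩ := k1 S W X.M X.cs hLg
  have hsymm : ∀ i j, X.M i j = X.M j i := fun i j => X.M.symmetric i j
  have hMac : X.M a c ≠ 2 := fun h => hMab (X.tr c a b (by rw [hsymm]; exact h) (by rw [hsymm]; exact hbc) hab)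
  have hm7 : 6 ≤ X.M a c := X.big a c hac hMac
  have hm7b : 6 ≤ X.M a b := X.big a b hab hMab
  have hcb : X.cs.simple c * X.cs.simple b = X.cs.simple b * X.cs.simple c := (k2k b c hbc).symm
  have hbc' : b ≠ c := by
    rintro rfl
    rw [X.M.diagonal] at hbc
    norm_num at hbc
  obtain ⟨⟨hwmem, hwsym, hwinv, hwlen, hww⟩, hz1, hz2, ⟨hwRa, hwRc, hwLa, hwLc⟩, -, hzsm, -⟩ :=
    kd1 S W X.M X.cs a c hac (X.fin a c)
  obtain ⟨-, -, -, -, hfull, -, -, -, hl2, hl3, -⟩ := kd1 S W X.M X.cs a b hab (X.fin a b)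
  obtain ⟨hLw7, -, -, -, hLwc, hLwc', hLz⟩ := hL a c hac
  replace hLw7 := hLw7 hMac
  have hssa : ∀ i, X.cs.simple i * X.cs.simple i = 1 := fun i => X.cs.simple_mul_simple_self i
  -- membership
  have haM : X.cs.simple a ∈ par X.cs {a, c} := Subgroup.subset_closure ⟨a, by simp, rfl⟩
  have hcM : X.cs.simple c ∈ par X.cs {a, c} := Subgroup.subset_closure ⟨c, by simp, rfl⟩
  have haB : X.cs.simple a ∈ par X.cs {a, b} := Subgroup.subset_closure ⟨a, by simp, rfl⟩
  have hbB : X.cs.simple b ∈ par X.cs {a, b} := Subgroup.subset_closure ⟨b, by simp, rfl⟩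
  have gpa := fun P => Pool.Agent.Helper15.AM.k_gpa S W X.M X.cs P
  have gpc := fun P => Pool.Agent.Helper15.AM.k_gpc S W X.M X.cs P
  -- the elements x₅, y₅
  have hxa : X.cs.length (x * X.cs.simple a) = X.cs.length x + 1 := hx a (by simp)
  have hya : X.cs.length (X.cs.simple a * y) = X.cs.length y + 1 := hy a (by simp)
  have hRa : X.cs.IsRightDescent (x * X.cs.simple a) a := by
    show X.cs.length (x * X.cs.simple a * X.cs.simple a) < _
    rw [mul_assoc, hssa, mul_one, hxa]; omega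
  have hLa : X.cs.IsLeftDescent (X.cs.simple a * y) a := by
    show X.cs.length (X.cs.simple a * (X.cs.simple a * y)) < _
    rw [← mul_assoc, hssa, one_mul, hya]; omega
  obtain ⟨⟨x₅, hx5, hx5e, hx5l⟩, -⟩ := k2a a c hac (X.fin a c) _ hRa hcx
  obtain ⟨⟨y₅, hy5, hy5e, hy5l⟩, -⟩ := k2b a c hac (X.fin a c) _ hLa hcy
  set w := w0 X.cs a c with hw
  -- h = w c, k = c w
  have hx' : x = x₅ * w * X.cs.simple a := by
    rw [← hx5e, mul_assoc, hssa, mul_one]
  have hy' : y = X.cs.simple a * w * y₅ := by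
    rw [mul_assoc, ← hy5e, ← mul_assoc, hssa, one_mul]
  have lx5 : ∀ g ∈ par X.cs {a, c}, X.cs.length (x₅ * g) = X.cs.length x₅ + X.cs.length g :=
    fun g hg => (gpa {a, c}).2.2 x₅ hx5 g hg
  have ly5 : ∀ g ∈ par X.cs {a, c}, X.cs.length (g * y₅) = X.cs.length g + X.cs.length y₅ :=
    fun g hg => (gpc {a, c}).2.2.2.2.1 y₅ hy5 g hg
  have hwcl : X.cs.length (w * X.cs.simple c) + 1 = X.M a c := by
    rw [X.cs.isRightDescent_iff.1 hwRc, hwlen]
  have hcwl : X.cs.length (X.cs.simple c * w) + 1 = X.M a c := by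
    rw [X.cs.isLeftDescent_iff.1 hwLc, hwlen]
  have hlx : X.cs.length x + 1 = X.cs.length x₅ + X.M a c := by rw [← hxa, hx5l]
  have hly : X.cs.length y + 1 = X.M a c + X.cs.length y₅ := by rw [← hya, hy5l]
  obtain ⟨rc1, rc2⟩ := rc S W X.M X.cs hLg a b c x₅ y₅ hab hac hMab hbc hx5 hy5 (by rw [← hw, ← hx']; exact hx)
    (by rw [← hw, ← hy']; exact hy)
  rw [← hw] at rc1 rc2
  have hwcM : w * X.cs.simple c ∈ par X.cs {a, c} := mul_mem hwmem hcM
  have hcwM : X.cs.simple c * w ∈ par X.cs {a, c} := mul_mem hcM hwmem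
  -- products
  have e1 : X.D.t x * X.D.t (X.cs.simple a) = X.D.t (x₅ * w) := by rw [tr X hxa, hx5e]
  have e2 : X.D.t (X.cs.simple a) * X.D.t y = X.D.t (w * y₅) := by rw [tl X hya, hy5e]
  have habal : X.cs.length (X.cs.simple a * X.cs.simple b * X.cs.simple a) = 3 := hl3 (by omega)
  have eaba : X.D.t (X.cs.simple a * X.cs.simple b * X.cs.simple a) =
      X.D.t (X.cs.simple a) * X.D.t (X.cs.simple b) * X.D.t (X.cs.simple a) := by
    rw [mul3 X (by rw [habal, X.cs.length_simple, X.cs.length_simple])]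
  have e3 : X.D.t x * X.D.t (X.cs.simple a * X.cs.simple b * X.cs.simple a) * X.D.t y =
      X.D.t (x₅ * w) * (X.D.t (X.cs.simple b) * X.D.t (w * y₅)) := by
    rw [eaba, ← e1, ← e2]; noncomm_ring
  have e4 : X.D.t (x₅ * (w * X.cs.simple c)) * X.D.t (X.cs.simple c) = X.D.t (x₅ * w) := by
    rw [tr X]
    · congr 1
      rw [mul_assoc, mul_assoc, hssa, mul_one]
    · rw [mul_assoc, mul_assoc, hssa, mul_one, lx5 w hwmem, lx5 _ hwcM, hwlen]; omega
  have e5 : X.D.t (X.cs.simple c) * X.D.t (X.cs.simple c * w * y₅) = X.D.t (w * y₅) := by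
    rw [tl X]
    · congr 1
      rw [← mul_assoc, ← mul_assoc, hssa, one_mul]
    · rw [← mul_assoc, ← mul_assoc, hssa, one_mul, ly5 w hwmem, ly5 _ hcwM, hwlen]; omega
  have e6 : X.D.t (X.cs.simple c) * X.D.t (X.cs.simple b) =
      X.D.t (X.cs.simple b) * X.D.t (X.cs.simple c) := by
    have h1 : X.cs.length (X.cs.simple b * X.cs.simple c) = 2 := by
      obtain ⟨-, -, -, -, -, -, -, -, h, -⟩ := kd1 S W X.M X.cs b c hbc' (X.fin b c)
      exact h
    rw [X.D.mul (X.cs.simple b) (X.cs.simple c) (by rw [h1, X.cs.length_simple, X.cs.length_simple]),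
      X.D.mul (X.cs.simple c) (X.cs.simple b) (by rw [hcb, h1, X.cs.length_simple, X.cs.length_simple]), hcb]
  -- reduced product
  have e8 : X.D.t (x₅ * w) * X.D.t (X.cs.simple b) * X.D.t (X.cs.simple c * w * y₅) =
      X.D.t (x₅ * w * X.cs.simple b * (X.cs.simple c * w * y₅)) := by
    apply mul3
    rw [lx5 _ hwmem, ly5 _ hcwM, X.cs.length_simple, ← mul_assoc, hwlen]
    omega
  rw [e3]
  refine (hrl S W H X M K a c _ hac hId hGe).1 x₅ hx5 (fun z hz hzw => ?_)
  rw [← hw] at hzw ⊢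
  obtain ⟨hz1a, hz1b, hz1c, hz1d⟩ := hz1 z hz
  obtain ⟨hz2a, hz2b⟩ := hz2 z hz
  replace hz1b := hz1b hzw
  replace hz2a := (hz2a hzw).1
  obtain ⟨hLz1, hLz2, hLz3, hLz4, hLz5, hLz6⟩ := hLz z hz hzw
  have hrew : ∀ Z : H, Z = X.D.t (x₅ * z) * (X.D.t (X.cs.simple b) * X.D.t (w * y₅)) →
      ∀ k, X.LP M k Z → k ≤ K + X.L w - X.L z → X.LP M (K + X.L w - X.L z)
        (X.D.t (x₅ * z) * (X.D.t (X.cs.simple b) * X.D.t (w * y₅))) := by
    intro Z hZ k hk hle
    rw [← hZ]
    exact hk.mono hle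
  have hba : X.cs.length (X.cs.simple b * X.cs.simple a) = 2 := by
    obtain ⟨-, -, -, -, -, -, -, -, h, -⟩ := kd1 S W X.M X.cs b a hab.symm (X.fin b a)
    exact h
  have hbay : X.cs.length (X.cs.simple b * X.cs.simple a * y) = 2 + X.cs.length y := by
    rw [(gpc {a, b}).2.2.2.2.1 y hy _ (mul_mem hbB haB), hba]
  have e9 : X.D.t (X.cs.simple b) * X.D.t (w * y₅) = X.D.t (X.cs.simple b * X.cs.simple a * y) := by
    rw [← hy5e, tl X, mul_assoc]
    rw [← mul_assoc, hbay, hya]; omega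
  simp only [TF.l] at hK1 hB2K hB3K
  by_cases hzh : z = w * X.cs.simple c
  · -- z = h
    refine hrew (X.D.t (x₅ * w * X.cs.simple b * (X.cs.simple c * w * y₅))) ?_ 1 (TF.LP.t M _) ?_
    · rw [hzh, ← e8, ← e4, ← e5]
      calc X.D.t (x₅ * (w * X.cs.simple c)) * X.D.t (X.cs.simple c) * X.D.t (X.cs.simple b) *
            X.D.t (X.cs.simple c * w * y₅)
          = X.D.t (x₅ * (w * X.cs.simple c)) * (X.D.t (X.cs.simple c) * X.D.t (X.cs.simple b)) *
            X.D.t (X.cs.simple c * w * y₅) := by noncomm_ring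
        _ = _ := by rw [e6]; noncomm_ring
    · have := hLpos c
      rw [hzh]
      omega
  by_cases hz3 : X.cs.length z ≤ 2 ∨ (X.cs.length z ≤ 3 ∧ X.cs.IsRightDescent z a)
  · refine hrew _ (by rw [e9]) M (hN0 (x₅ * z) (X.cs.simple b * X.cs.simple a * y) ?_) ?_
    · have h3 : X.cs.length z ≤ 3 := by
        rcases hz3 with h | h
        · omega
        · exact h.1
      rw [lx5 z hz, hbay]; omega
    · rcases hz3 with h | h
      · have h1 := hLz5 hMac h
        omega
      · have h1 := hLz6 hMac h.1 h.2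
        omega
  have hz3' : 2 < X.cs.length z := by
    by_contra h
    exact hz3 (Or.inl (by omega))
  by_cases hza : X.cs.IsRightDescent z a
  · -- a ∈ R(z)
    have hz4 : 3 < X.cs.length z := by
      by_contra h
      exact hz3 (Or.inr ⟨by omega, hza⟩)
    have hzal : X.cs.length (z * X.cs.simple a) + 1 = X.cs.length z := X.cs.isRightDescent_iff.1 hza
    have hlz : X.cs.length z + 2 ≤ X.M a c := by
      by_contra hcon
      have hlz1 : X.cs.length z + 1 = X.M a c := by omega
      obtain ⟨-, -, -, h1⟩ := hz1 z⁻¹ (inv_mem hz)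
      have h3 : X.cs.length (z⁻¹ * w) = 1 := by
        rw [X.cs.length_inv] at h1; omega
      rcases (hzsm (z⁻¹ * w) (mul_mem (inv_mem hz) hwmem)).1 h3 with h4 | h4
      · have h5 : w = z * X.cs.simple a := by rw [← h4]; group
        have h6 : X.cs.length (z * X.cs.simple a) = X.M a c := by rw [← h5, hwlen]
        omega
      · have h5 : w = z * X.cs.simple c := by rw [← h4]; group
        apply hzh
        rw [h5, mul_assoc, hssa, mul_one]
    have hzaM : z * X.cs.simple a ∈ par X.cs {a, c} := mul_mem hz haM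
    have hu : XR X.cs {a, b} (x₅ * (z * X.cs.simple a)) := by
      intro i hi
      rw [← X.cs.not_isRightDescent_iff]
      rcases hi with rfl | hi
      · rw [k2c {i, c} x₅ (z * X.cs.simple i) i hx5 hzaM (by simp), X.cs.not_isRightDescent_iff,
          mul_assoc, hssa, mul_one]
        omega
      · rw [Set.mem_singleton_iff] at hi
        subst hi
        intro hcon
        have := hSZ a i c x₅ (z * X.cs.simple a) hac hab.symm hbc' hx5 hzaM hcon
        omega
    have hFull : Full X.cs a b (X.cs.simple a * X.cs.simple b * X.cs.simple a) := by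
      rw [hfull]
      exact ⟨mul_mem (mul_mem haB hbB) haB, by rw [habal]; norm_num⟩
    have hN := hN2 a b (x₅ * (z * X.cs.simple a)) _ y β₃ hab hMab hu hFull hy hB3 (by
      rw [lx5 _ hzaM]; omega)
    refine hrew _ ?_ _ hN ?_
    · rw [eaba, ← hy5e, ← tl X hya]
      have : X.D.t (x₅ * z) = X.D.t (x₅ * (z * X.cs.simple a)) * X.D.t (X.cs.simple a) := by
        rw [tr X]
        · congr 1
          rw [mul_assoc, mul_assoc, hssa, mul_one]
        · rw [mul_assoc, mul_assoc, hssa, mul_one, lx5 z hz, lx5 _ hzaM]; omega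
      rw [this]
      noncomm_ring
    · have h1 := hLz4 hlz
      have h2 := hLpos a
      omega
  · -- c ∈ R(z)
    have hz0 : z ≠ 1 := by
      rintro rfl
      rw [X.cs.length_one] at hz3'
      omega
    have hu : XR X.cs {a, b} (x₅ * z) := by
      intro i hi
      rw [← X.cs.not_isRightDescent_iff]
      rcases hi with rfl | hi
      · rw [k2c {i, c} x₅ z i hx5 hz (by simp)]
        exact hza
      · rw [Set.mem_singleton_iff] at hi
        subst hi
        intro hcon
        have := hSZ a i c x₅ z hac hab.symm hbc' hx5 hz hcon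
        omega
    have hFull : Full X.cs a b (X.cs.simple b * X.cs.simple a) := by
      rw [hfull]
      exact ⟨mul_mem hbB haB, by rw [hba]⟩
    have hN := hlast a b (x₅ * z) _ y β₂ hab hMab hu hFull hy hba hB2 (by rw [lx5 z hz]; omega)
    refine hrew _ ?_ _ hN ?_
    · rw [← hy5e, ← tl X hya, ← X.D.mul (X.cs.simple b) (X.cs.simple a)
        (by rw [hba, X.cs.length_simple, X.cs.length_simple])]
      noncomm_ring
    · have h1 := hLz2 hzh
      have h2 := hLpos a
      omega

end Pool.Agent.Helper74.LF.C_UCL
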